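import Pool.Agent.R345.SS3
import Pool.Agent.Y549.SP.BL

set_option autoImplicit false

/-! A bilinear inequality and moments for sums over primes of functions `K p a (κ p b)`, where the correlations of
`K p a` and `K p a'` are small for most primes `p` (abstract form; after `Pool.Agent.R345.SS1`, `SS2`, `SS3`). -/

namespace Pool.Agent.V8H62.PF

open Finset Pool.Agent.R345.SS

variable {α β : Type}

/-- the bilinear bound -/
theorem bilinear (T : Finset ℕ) (A : Finset α) (B : Finset β) (K : ℕ → α → ℕ → ℝ) (κ : ℕ → β → ℕ)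
    (w : ℕ → β → ℝ) (c : ℕ → α → α → ℝ) (hκ : ∀ p ∈ T, ∀ b ∈ B, κ p b < p) (hw : ∀ p ∈ T, ∀ b ∈ B, |w p b| ≤ 1)
    (hc : ∀ p ∈ T, ∀ a ∈ A, ∀ a' ∈ A, |∑ t ∈ range p, K p a t * K p a' t| ≤ c p a a') :
    (∑ a ∈ A, ∑ b ∈ B, ∏ p ∈ T, (w p b * K p a (κ p b))) ^ 2 ≤
      (∑ a ∈ A, ∑ a' ∈ A, ∏ p ∈ T, c p a a') *
        (∑ b ∈ B, ∑ b' ∈ B, ∏ p ∈ T, (if κ p b = κ p b' then (1 : ℝ) else 0)) := by
  classical
  set Z : Finset ((p : ℕ) → p ∈ T → ℕ) := T.pi (fun p => range p) with hZ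
  set κ' : β → ((p : ℕ) → p ∈ T → ℕ) := fun v p _ => κ p v with hκ'
  have hκZ : ∀ v ∈ B, κ' v ∈ Z := by
    intro v hv
    rw [hZ, mem_pi]
    intro p hp
    exact mem_range.2 (hκ p hp v hv)
  set S : β → ℝ := fun v => ∏ p ∈ T, w p v with hS
  have hSabs : ∀ v ∈ B, |S v| ≤ 1 := by
    intro v hv
    rw [hS]
    simp only
    rw [abs_prod]
    exact prod_le_one (fun _ _ => abs_nonneg _) fun p hp => hw p hp v hv
  set G : ((p : ℕ) → p ∈ T → ℕ) → ℝ := fun z => ∑ u ∈ A, ∏ x ∈ T.attach, K x.1 u (z x.1 x.2) with hG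
  have h0 : ∀ u v, ∏ p ∈ T, (w p v * K p u (κ p v)) = S v * ∏ x ∈ T.attach, K x.1 u (κ' v x.1 x.2) := by
    intro u v
    rw [prod_mul_distrib, hS]
    simp only
    rw [← prod_attach T (fun p => K p u (κ p v))]
  have h1 : ∑ u ∈ A, ∑ v ∈ B, ∏ p ∈ T, (w p v * K p u (κ p v)) =
      ∑ z ∈ Z, G z * (∑ v ∈ B with κ' v = z, S v) := by
    rw [sum_comm]
    have e : ∀ v ∈ B, ∑ u ∈ A, ∏ p ∈ T, (w p v * K p u (κ p v)) = G (κ' v) * S v := by
      intro v _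
      rw [sum_congr rfl fun u _ => h0 u v, ← mul_sum, mul_comm]
    rw [sum_congr rfl e, ← sum_fiberwise_of_maps_to (g := κ') (t := Z) hκZ]
    refine sum_congr rfl fun z _ => ?_
    rw [mul_sum]
    exact sum_congr rfl fun v hv => by rw [(mem_filter.1 hv).2]
  rw [h1]
  refine (sum_mul_sq_le_sq_mul_sq _ _ _).trans ?_
  have h2 : ∑ z ∈ Z, G z ^ 2 ≤ ∑ u ∈ A, ∑ u' ∈ A, ∏ p ∈ T, c p u u' := by
    have h3 : ∀ z, G z ^ 2 = ∑ u ∈ A, ∑ u' ∈ A, ∏ x ∈ T.attach, (K x.1 u (z x.1 x.2) * K x.1 u' (z x.1 x.2)) := by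
      intro z
      rw [sq, hG]
      simp only
      rw [sum_mul_sum]
      refine sum_congr rfl fun a _ => sum_congr rfl fun a' _ => ?_
      rw [prod_mul_distrib]
    rw [sum_congr rfl fun z _ => h3 z, sum_comm]
    refine sum_le_sum fun u hu => ?_
    rw [sum_comm]
    refine sum_le_sum fun u' hu' => ?_
    have h4 := (prod_sum T (fun p => range p) (fun p t => K p u t * K p u' t)).symm
    rw [hZ, h4]
    refine (le_abs_self _).trans ?_
    rw [abs_prod]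
    exact prod_le_prod (fun _ _ => abs_nonneg _) fun p hp => hc p hp u hu u' hu'
  have h4 : ∑ z ∈ Z, (∑ v ∈ B with κ' v = z, S v) ^ 2 ≤
      ∑ v ∈ B, ∑ v' ∈ B, ∏ p ∈ T, (if κ p v = κ p v' then (1 : ℝ) else 0) := by
    have h5 : ∀ z ∈ Z, (∑ v ∈ B with κ' v = z, S v) ^ 2 ≤ ((B.filter (fun v => κ' v = z)).card : ℝ) ^ 2 := by
      intro z _
      rw [← sq_abs]
      refine pow_le_pow_left₀ (abs_nonneg _) ?_ 2
      refine (abs_sum_le_sum_abs _ _).trans ((sum_le_sum (g := fun _ => (1 : ℝ)) fun v hv =>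
        hSabs v (mem_filter.1 hv).1).trans ?_)
      simp
    refine (sum_le_sum h5).trans ?_
    have h6 : ∑ z ∈ Z, ((B.filter (fun v => κ' v = z)).card : ℝ) ^ 2 = ∑ v ∈ B, ∑ v' ∈ B, (if κ' v' = κ' v then (1 : ℝ) else 0) := by
      have h8 : ∀ v, ∑ v' ∈ B, (if κ' v' = κ' v then (1 : ℝ) else 0) = ((B.filter (fun v' => κ' v' = κ' v)).card : ℝ) := by
        intro b
        rw [sum_boole]
      rw [sum_congr rfl fun b _ => h8 b, ← sum_fiberwise_of_maps_to (g := κ') (t := Z) hκZ]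
      refine sum_congr rfl fun r _ => ?_
      rw [sum_congr rfl (g := fun _ => ((B.filter (fun b' => κ' b' = r)).card : ℝ)) fun b hb => by rw [(mem_filter.1 hb).2],
        sum_const, nsmul_eq_mul, sq]
    rw [h6]
    refine sum_le_sum fun v _ => sum_le_sum fun v' _ => ?_
    by_cases h : κ' v' = κ' v
    · rw [if_pos h]
      refine le_of_eq (prod_eq_one fun p hp => if_pos ?_).symm
      exact (congrFun (congrFun h p) hp).symm
    · rw [if_neg h]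
      refine prod_nonneg fun p _ => ?_
      split_ifs <;> norm_num
  refine mul_le_mul h2 h4 (sum_nonneg fun _ _ => sq_nonneg _) ?_
  exact sum_nonneg fun u hu => sum_nonneg fun u' hu' => prod_nonneg fun p hp => (abs_nonneg _).trans (hc p hp u hu u' hu')

/-- the data for the set `A`: `bad` is the set of the bad pairs -/
structure DA (k : ℕ) (y V R : ℝ) (b : ℕ) (B : ℕ → Finset ℕ) (X : Finset ℕ) (A : Finset α) (c : ℕ → α → α → ℝ)
    (bad : Finset (α × α)) : Prop where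
  nonneg : ∀ p a a', 0 ≤ c p a a'
  big : ∀ i ∈ X, ∀ p ∈ B i, ∀ a ∈ A, ∀ a' ∈ A, c p a a' ≤ y
  good : ∀ i ∈ X, ∀ a ∈ A, ∀ a' ∈ A, (a, a') ∉ bad → ∑ p ∈ B i, c p a a' ≤ V
  few : (bad.card : ℝ) ≤ R * A.card
  many : y ^ k ≤ A.card
  hy : 1 ≤ y
  hV : Real.sqrt y * b ≤ V
  hR : 0 ≤ R
  card : X.card = k
  block : ∀ i ∈ X, (B i).card = b
  hb : 1 ≤ b

/-- the data for the set `A'` -/
structure DB (k : ℕ) (W : ℝ) (b : ℕ) (B : ℕ → Finset ℕ) (X : Finset ℕ) (A' : Finset β) (κ : ℕ → β → ℕ) : Prop where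
  few : ∀ i ∈ X, ∀ a ∈ A', ∀ a' ∈ A', a ≠ a' → (((B i).filter (fun p : ℕ => κ p a = κ p a')).card : ℝ) ≤ W
  many : (b : ℝ) ^ (2 * k) ≤ A'.card
  hW : 1 ≤ W
  card : X.card = k
  block : ∀ i ∈ X, (B i).card = b
  hb : 1 ≤ b

/-- the sum of the weights -/
theorem sumG [DecidableEq α] {k : ℕ} {y V R : ℝ} {b : ℕ} {B : ℕ → Finset ℕ} {X : Finset ℕ} {A : Finset α} {c : ℕ → α → α → ℝ}
    {bad : Finset (α × α)} (h : DA k y V R b B X A c bad) {I : Finset ℕ} (hI : I ⊆ X) :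
    ∑ a ∈ A, ∑ a' ∈ A, ∏ i ∈ I, e2 (B i) (fun p => c p a a') ≤
      (1 / 2) ^ I.card * ((1 + R) * (A.card : ℝ) ^ 2 * V ^ (2 * I.card)) := by
  have hb1 : (1 : ℝ) ≤ b := by exact_mod_cast h.hb
  have hy1 := h.hy
  have hR := h.hR
  have hsy : 1 ≤ Real.sqrt y := Real.one_le_sqrt.2 hy1
  have hV0 : 0 ≤ V := le_trans (by positivity) h.hV
  have hIk : I.card ≤ k := h.card ▸ card_le_card hI
  have h1 : ∀ a ∈ A, ∀ a' ∈ A, ∏ i ∈ I, e2 (B i) (fun p => c p a a') ≤ (1 / 2) ^ I.card * (y ^ I.card * V ^ (2 * I.card)) := by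
    intro a ha a' ha'
    refine (prod_le_prod (g := fun _ => 1 / 2 * (y * V ^ 2)) (fun i _ => e2_nonneg _ _ fun p _ => h.nonneg _ _ _) ?_).trans ?_
    · intro i hi
      refine (e2_le _ _).trans ?_
      have h3 : ∑ p ∈ B i, c p a a' ≤ y * b := by
        refine (sum_le_sum (g := fun _ => y) fun p hp => h.big i (hI hi) p hp a ha a' ha').trans ?_
        rw [sum_const, h.block i (hI hi), nsmul_eq_mul]
        apply le_of_eq; ring
      have h4 : 0 ≤ ∑ p ∈ B i, c p a a' := sum_nonneg fun _ _ => h.nonneg _ _ _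
      have h5 := pow_le_pow_left₀ h4 h3 2
      have h6 : (y * b) ^ 2 ≤ y * V ^ 2 := by
        have h7 := pow_le_pow_left₀ (by positivity) h.hV 2
        rw [mul_pow, Real.sq_sqrt (by linarith)] at h7
        calc (y * b : ℝ) ^ 2 = y * (y * (b : ℝ) ^ 2) := by ring
          _ ≤ y * V ^ 2 := mul_le_mul_of_nonneg_left h7 (by linarith)
      linarith
    · rw [prod_const, mul_pow, mul_pow, ← pow_mul]
  have h2 : ∀ a ∈ A, ∀ a' ∈ A, (a, a') ∉ bad → ∏ i ∈ I, e2 (B i) (fun p => c p a a') ≤ (1 / 2) ^ I.card * V ^ (2 * I.card) := by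
    intro a ha a' ha' hne
    refine (prod_le_prod (g := fun _ => 1 / 2 * V ^ 2) (fun i _ => e2_nonneg _ _ fun p _ => h.nonneg _ _ _) ?_).trans ?_
    · intro i hi
      refine (e2_le _ _).trans ?_
      have h3 := h.good i (hI hi) a ha a' ha' hne
      have h4 : 0 ≤ ∑ p ∈ B i, c p a a' := sum_nonneg fun _ _ => h.nonneg _ _ _
      have := pow_le_pow_left₀ h4 h3 2
      linarith
    · rw [prod_const, mul_pow, ← pow_mul]
  rw [← sum_product']
  have h3 : ∀ z ∈ A ×ˢ A, ∏ i ∈ I, e2 (B i) (fun p => c p z.1 z.2) ≤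
      (1 / 2) ^ I.card * V ^ (2 * I.card) + (if z ∈ bad then (1 / 2) ^ I.card * (y ^ I.card * V ^ (2 * I.card)) else 0) := by
    intro z hz
    rw [mem_product] at hz
    split_ifs with hzb
    · have := h1 z.1 hz.1 z.2 hz.2
      have : (0 : ℝ) ≤ (1 / 2) ^ I.card * V ^ (2 * I.card) := by positivity
      linarith
    · rw [add_zero]
      exact h2 z.1 hz.1 z.2 hz.2 hzb
  refine (sum_le_sum h3).trans ?_
  rw [sum_add_distrib, sum_const, card_product, nsmul_eq_mul, ← sum_filter, sum_const, nsmul_eq_mul]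
  have h4 : (((A ×ˢ A).filter (fun z => z ∈ bad)).card : ℝ) ≤ R * A.card := by
    refine le_trans ?_ h.few
    have : (A ×ˢ A).filter (fun z => z ∈ bad) ⊆ bad := fun z hz => (mem_filter.1 hz).2
    exact_mod_cast card_le_card this
  have h5 : y ^ I.card ≤ A.card := (pow_le_pow_right₀ hy1 hIk).trans h.many
  have h6 : (0 : ℝ) ≤ (1 / 2) ^ I.card * V ^ (2 * I.card) := by positivity
  have h7 : (((A ×ˢ A).filter (fun z => z ∈ bad)).card : ℝ) * ((1 / 2) ^ I.card * (y ^ I.card * V ^ (2 * I.card))) ≤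
      (R * A.card) * ((1 / 2) ^ I.card * (A.card * V ^ (2 * I.card))) := by
    refine mul_le_mul h4 ?_ (by positivity) (by positivity)
    refine mul_le_mul_of_nonneg_left (mul_le_mul_of_nonneg_right h5 (by positivity)) (by positivity)
  push_cast
  calc (A.card : ℝ) * A.card * ((1 / 2) ^ I.card * V ^ (2 * I.card)) +
        (((A ×ˢ A).filter (fun z => z ∈ bad)).card : ℝ) * ((1 / 2) ^ I.card * (y ^ I.card * V ^ (2 * I.card)))
      ≤ (A.card : ℝ) * A.card * ((1 / 2) ^ I.card * V ^ (2 * I.card)) +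
        (R * A.card) * ((1 / 2) ^ I.card * (A.card * V ^ (2 * I.card))) := by linarith
    _ = _ := by ring

/-- the sum of the numbers of coincidences -/
theorem sumE {k : ℕ} {W : ℝ} {b : ℕ} {B : ℕ → Finset ℕ} {X : Finset ℕ} {A' : Finset β} {κ : ℕ → β → ℕ}
    (h : DB k W b B X A' κ) {I : Finset ℕ} (hI : I ⊆ X) :
    ∑ a ∈ A', ∑ a' ∈ A', ∏ i ∈ I, e2 (B i) (fun p => if κ p a = κ p a' then (1 : ℝ) else 0) ≤
      (1 / 2) ^ I.card * (2 * (A'.card : ℝ) ^ 2 * W ^ (2 * I.card)) := by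
  classical
  have hb1 : (1 : ℝ) ≤ b := by exact_mod_cast h.hb
  have hW := h.hW
  have hIk : I.card ≤ k := h.card ▸ card_le_card hI
  have hnn : ∀ (a a' : β) (p : ℕ), (0 : ℝ) ≤ if κ p a = κ p a' then (1 : ℝ) else 0 := by
    intro a a' p; split_ifs <;> norm_num
  have hg : ∀ (a a' : β) (U : ℝ), 0 ≤ U → (∀ i ∈ I, (((B i).filter (fun p : ℕ => κ p a = κ p a')).card : ℝ) ≤ U) →
      ∏ i ∈ I, e2 (B i) (fun p => if κ p a = κ p a' then (1 : ℝ) else 0) ≤ (1 / 2) ^ I.card * (U ^ (2 * I.card)) := by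
    intro a a' U hU hi
    refine (prod_le_prod (g := fun _ => 1 / 2 * U ^ 2) (fun i _ => e2_nonneg _ _ fun p _ => hnn _ _ _) ?_).trans ?_
    · intro i hiI
      refine (e2_le _ _).trans ?_
      rw [sum_boole]
      have := pow_le_pow_left₀ (Nat.cast_nonneg _) (hi i hiI) 2
      linarith
    · rw [prod_const, mul_pow, ← pow_mul]
  have hrow : ∀ a ∈ A', ∑ a' ∈ A', ∏ i ∈ I, e2 (B i) (fun p => if κ p a = κ p a' then (1 : ℝ) else 0) ≤
      (1 / 2) ^ I.card * ((b : ℝ) ^ (2 * I.card)) + A'.card * ((1 / 2) ^ I.card * (W ^ (2 * I.card))) := by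
    intro a ha
    rw [← add_sum_erase A' _ ha]
    refine add_le_add (hg a a b (by linarith) fun i hi => ?_) ?_
    · rw [← h.block i (hI hi)]
      exact_mod_cast card_filter_le _ _
    · refine (sum_le_sum (g := fun _ => (1 / 2) ^ I.card * (W ^ (2 * I.card))) fun a' ha' =>
        hg a a' W (by linarith) fun i hi => h.few i (hI hi) a ha a' (mem_of_mem_erase ha') (ne_of_mem_erase ha').symm).trans ?_
      rw [sum_const, nsmul_eq_mul]
      refine mul_le_mul_of_nonneg_right ?_ (by positivity)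
      exact_mod_cast card_le_card (erase_subset a A')
  refine (sum_le_sum hrow).trans ?_
  rw [sum_const, nsmul_eq_mul]
  have h5 : (b : ℝ) ^ (2 * I.card) ≤ A'.card * W ^ (2 * I.card) := by
    have h7 : (1 : ℝ) ≤ W ^ (2 * I.card) := one_le_pow₀ hW
    have h8 : (b : ℝ) ^ (2 * I.card) ≤ A'.card :=
      (pow_le_pow_right₀ hb1 (by omega)).trans h.many
    refine h8.trans (le_mul_of_one_le_right (Nat.cast_nonneg _) h7)
  have h8 : (0 : ℝ) < (1 / 2) ^ I.card := by positivity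
  have h9 : (1 / 2 : ℝ) ^ I.card * ((b : ℝ) ^ (2 * I.card)) ≤ (1 / 2) ^ I.card * (A'.card * W ^ (2 * I.card)) :=
    mul_le_mul_of_nonneg_left h5 h8.le
  calc (A'.card : ℝ) * ((1 / 2) ^ I.card * ((b : ℝ) ^ (2 * I.card)) + A'.card * ((1 / 2) ^ I.card * (W ^ (2 * I.card))))
      ≤ (A'.card : ℝ) * ((1 / 2) ^ I.card * (A'.card * W ^ (2 * I.card)) + A'.card * ((1 / 2) ^ I.card * (W ^ (2 * I.card)))) :=
        mul_le_mul_of_nonneg_left (by linarith) (Nat.cast_nonneg _)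
    _ = _ := by ring

/-- the sum of the products of symmetric functions over the pairs -/
theorem sumT [DecidableEq α] {k : ℕ} {y V R W : ℝ} {b : ℕ} {B : ℕ → Finset ℕ} {X : Finset ℕ} {A : Finset α} {c : ℕ → α → α → ℝ}
    {bad : Finset (α × α)} (h : DA k y V R b B X A c bad) {A' : Finset β} {κ : ℕ → β → ℕ} (h' : DB k W b B X A' κ)
    (K : ℕ → α → ℕ → ℝ) (w : ℕ → β → ℝ) (hd : ∀ i ∈ X, ∀ j ∈ X, i ≠ j → Disjoint (B i) (B j))
    (hκ : ∀ i ∈ X, ∀ p ∈ B i, ∀ b ∈ A', κ p b < p) (hw : ∀ i ∈ X, ∀ p ∈ B i, ∀ b ∈ A', |w p b| ≤ 1)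
    (hc : ∀ i ∈ X, ∀ p ∈ B i, ∀ a ∈ A, ∀ a' ∈ A, |∑ t ∈ range p, K p a t * K p a' t| ≤ c p a a')
    {I : Finset ℕ} (hI : I ⊆ X) :
    2 ^ I.card * ∑ a ∈ A, ∑ a' ∈ A', ∏ i ∈ I, e2 (B i) (fun p => w p a' * K p a (κ p a')) ≤
      2 * (1 + R) * A.card * A'.card * (V * W) ^ I.card := by
  classical
  have hR := h.hR
  have hy1 := h.hy
  have hW := h'.hW
  have hV0 : 0 ≤ V := le_trans (by positivity) h.hV
  obtain ⟨F, hF, hFs⟩ := fam B I (fun i hi j hj => hd i (hI hi) j (hI hj))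
  set Z : Finset ℕ → ℝ := fun T => ∑ a ∈ A, ∑ a' ∈ A', ∏ p ∈ T, (w p a' * K p a (κ p a')) with hZ
  have h1 : ∑ a ∈ A, ∑ a' ∈ A', ∏ i ∈ I, e2 (B i) (fun p => w p a' * K p a (κ p a')) = ∑ T ∈ F, Z T := by
    rw [sum_congr rfl fun a _ => sum_congr rfl fun a' _ => (hFs _).symm]
    rw [sum_congr rfl fun a _ => sum_comm, sum_comm]
  have h2 : ∑ T ∈ F, Z T ≤ ∑ T ∈ F, |Z T| := sum_le_sum fun T _ => le_abs_self _
  have hTp : ∀ T ∈ F, ∀ p ∈ T, ∃ i ∈ X, p ∈ B i := by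
    intro T hT p hp
    obtain ⟨i, hi, hpi⟩ := mem_biUnion.1 (hF T hT hp)
    exact ⟨i, hI hi, hpi⟩
  have h3 : (∑ T ∈ F, |Z T|) ^ 2 ≤
      (∑ T ∈ F, ∑ a ∈ A, ∑ a' ∈ A, ∏ p ∈ T, c p a a') *
        (∑ T ∈ F, ∑ b ∈ A', ∑ b' ∈ A', ∏ p ∈ T, (if κ p b = κ p b' then (1 : ℝ) else 0)) := by
    refine sum_sq_le_sum_mul_sum_of_sq_le_mul F ?_ ?_ ?_
    · intro T _
      exact sum_nonneg fun _ _ => sum_nonneg fun _ _ => prod_nonneg fun _ _ => h.nonneg _ _ _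
    · intro T _
      refine sum_nonneg fun _ _ => sum_nonneg fun _ _ => prod_nonneg fun _ _ => ?_
      split_ifs <;> norm_num
    · intro T hT
      rw [sq_abs]
      refine bilinear T A A' K κ w c ?_ ?_ ?_
      · intro p hp b hb
        obtain ⟨i, hi, hpi⟩ := hTp T hT p hp
        exact hκ i hi p hpi b hb
      · intro p hp b hb
        obtain ⟨i, hi, hpi⟩ := hTp T hT p hp
        exact hw i hi p hpi b hb
      · intro p hp a ha a' ha'
        obtain ⟨i, hi, hpi⟩ := hTp T hT p hp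
        exact hc i hi p hpi a ha a' ha'
  have h4 : ∑ T ∈ F, ∑ a ∈ A, ∑ a' ∈ A, ∏ p ∈ T, c p a a' = ∑ a ∈ A, ∑ a' ∈ A, ∏ i ∈ I, e2 (B i) (fun p => c p a a') := by
    rw [sum_comm]
    refine sum_congr rfl fun a _ => ?_
    rw [sum_comm]
    exact sum_congr rfl fun a' _ => hFs _
  have h5 : ∑ T ∈ F, ∑ b ∈ A', ∑ b' ∈ A', ∏ p ∈ T, (if κ p b = κ p b' then (1 : ℝ) else 0) =
      ∑ b ∈ A', ∑ b' ∈ A', ∏ i ∈ I, e2 (B i) (fun p => if κ p b = κ p b' then (1 : ℝ) else 0) := by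
    rw [sum_comm]
    refine sum_congr rfl fun a _ => ?_
    rw [sum_comm]
    exact sum_congr rfl fun a' _ => hFs _
  rw [h4, h5] at h3
  have h6 := sumG h hI
  have h7 := sumE h' hI
  have h8 : (∑ T ∈ F, |Z T|) ^ 2 ≤ ((1 / 2) ^ I.card * (2 * (1 + R) * A.card * A'.card * (V * W) ^ I.card)) ^ 2 := by
    refine h3.trans ((mul_le_mul h6 h7 ?_ (by positivity)).trans ?_)
    · refine sum_nonneg fun _ _ => sum_nonneg fun _ _ => prod_nonneg fun _ _ => e2_nonneg _ _ fun _ _ => ?_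
      split_ifs <;> norm_num
    · have e : (1 / 2 : ℝ) ^ I.card * ((1 + R) * (A.card : ℝ) ^ 2 * V ^ (2 * I.card)) *
            ((1 / 2) ^ I.card * (2 * (A'.card : ℝ) ^ 2 * W ^ (2 * I.card))) =
          (2 * (1 + R)) * ((1 / 2 : ℝ) ^ I.card * (A.card * A'.card * (V * W) ^ I.card)) ^ 2 := by
        rw [mul_pow V W, pow_mul' V, pow_mul' W]
        ring
      have e2 : ((1 / 2) ^ I.card * (2 * (1 + R) * A.card * A'.card * (V * W) ^ I.card)) ^ 2 =
          (2 * (1 + R)) ^ 2 * ((1 / 2 : ℝ) ^ I.card * (A.card * A'.card * (V * W) ^ I.card)) ^ 2 := by ring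
      rw [e, e2]
      refine mul_le_mul_of_nonneg_right ?_ (sq_nonneg _)
      nlinarith
  have h9 : ∑ T ∈ F, |Z T| ≤ (1 / 2) ^ I.card * (2 * (1 + R) * A.card * A'.card * (V * W) ^ I.card) := by
    refine le_of_sq_le_sq h8 ?_
    positivity
  rw [h1]
  have h10 : (2 : ℝ) ^ I.card * (1 / 2) ^ I.card = 1 := by rw [← mul_pow]; norm_num
  calc 2 ^ I.card * ∑ T ∈ F, Z T ≤ 2 ^ I.card * ∑ T ∈ F, |Z T| :=
        mul_le_mul_of_nonneg_left h2 (by positivity)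
    _ ≤ 2 ^ I.card * ((1 / 2) ^ I.card * (2 * (1 + R) * A.card * A'.card * (V * W) ^ I.card)) :=
        mul_le_mul_of_nonneg_left h9 (by positivity)
    _ = (2 ^ I.card * (1 / 2) ^ I.card) * (2 * (1 + R) * A.card * A'.card * (V * W) ^ I.card) := by ring
    _ = _ := by rw [h10, one_mul]

/-- the moment bound -/
theorem moment [DecidableEq α] {k : ℕ} {y V R W : ℝ} {b : ℕ} {B : ℕ → Finset ℕ} {X : Finset ℕ} {A : Finset α} {c : ℕ → α → α → ℝ}
    {bad : Finset (α × α)} (h : DA k y V R b B X A c bad) {A' : Finset β} {κ : ℕ → β → ℕ} (h' : DB k W b B X A' κ)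
    (K : ℕ → α → ℕ → ℝ) (w : ℕ → β → ℝ) (hd : ∀ i ∈ X, ∀ j ∈ X, i ≠ j → Disjoint (B i) (B j))
    (hκ : ∀ i ∈ X, ∀ p ∈ B i, ∀ b ∈ A', κ p b < p) (hw : ∀ i ∈ X, ∀ p ∈ B i, ∀ b ∈ A', |w p b| ≤ 1)
    (hK : ∀ p a t, |K p a t| ≤ 1)
    (hc : ∀ i ∈ X, ∀ p ∈ B i, ∀ a ∈ A, ∀ a' ∈ A, |∑ t ∈ range p, K p a t * K p a' t| ≤ c p a a') :
    ∑ a ∈ A, ∑ a' ∈ A', ∏ i ∈ X, (∑ p ∈ B i, w p a' * K p a (κ p a')) ^ 2 ≤
      2 * (1 + R) * A.card * A'.card * (V * W + b) ^ k := by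
  classical
  have hR := h.hR
  have hW := h'.hW
  have hV0 : 0 ≤ V := le_trans (by positivity) h.hV
  have h1 : ∀ a, ∀ a' ∈ A', ∏ i ∈ X, (∑ p ∈ B i, w p a' * K p a (κ p a')) ^ 2 ≤
      ∑ I ∈ X.powerset, (2 ^ I.card * ∏ i ∈ I, e2 (B i) (fun p => w p a' * K p a (κ p a'))) * ∏ i ∈ X \ I, (b : ℝ) := by
    intro a a' ha'
    have h2 : ∏ i ∈ X, (∑ p ∈ B i, w p a' * K p a (κ p a')) ^ 2 ≤
        ∏ i ∈ X, (2 * e2 (B i) (fun p => w p a' * K p a (κ p a')) + b) := by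
      refine prod_le_prod (fun _ _ => sq_nonneg _) fun i hi => ?_
      rw [e2_sq]
      have h3 : ∑ p ∈ B i, (w p a' * K p a (κ p a')) ^ 2 ≤ b := by
        refine (sum_le_sum (g := fun _ => (1 : ℝ)) fun p hp => ?_).trans ?_
        · have h4 : |w p a' * K p a (κ p a')| ≤ 1 := by
            rw [abs_mul]
            exact mul_le_one₀ (hw i hi p hp a' ha') (abs_nonneg _) (hK _ _ _)
          rw [← sq_abs]
          have := abs_nonneg (w p a' * K p a (κ p a'))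
          nlinarith
        · rw [sum_const, h.block i hi]; simp
      linarith
    refine h2.trans (le_of_eq ?_)
    rw [prod_add]
    refine sum_congr rfl fun I _ => ?_
    rw [prod_mul_distrib, prod_const]
  refine (sum_le_sum fun a _ => sum_le_sum fun a' ha' => h1 a a' ha').trans ?_
  rw [sum_congr rfl fun a _ => sum_comm, sum_comm]
  have h5 : ∀ I ∈ X.powerset, ∑ a ∈ A, ∑ a' ∈ A', (2 ^ I.card * ∏ i ∈ I, e2 (B i) (fun p => w p a' * K p a (κ p a'))) * ∏ i ∈ X \ I, (b : ℝ) ≤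
      (2 * (1 + R) * A.card * A'.card) * ((∏ i ∈ I, (V * W)) * ∏ i ∈ X \ I, (b : ℝ)) := by
    intro I hI
    have hI' := mem_powerset.1 hI
    have h6 := sumT h h' K w hd hκ hw hc hI'
    have h7 : ∑ a ∈ A, ∑ a' ∈ A', (2 ^ I.card * ∏ i ∈ I, e2 (B i) (fun p => w p a' * K p a (κ p a'))) * ∏ i ∈ X \ I, (b : ℝ) =
        (2 ^ I.card * ∑ a ∈ A, ∑ a' ∈ A', ∏ i ∈ I, e2 (B i) (fun p => w p a' * K p a (κ p a'))) * ∏ i ∈ X \ I, (b : ℝ) := by
      rw [mul_sum, sum_mul]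
      refine sum_congr rfl fun a _ => ?_
      rw [mul_sum, sum_mul]
    rw [h7, prod_const, prod_const]
    refine (mul_le_mul_of_nonneg_right h6 (by positivity)).trans (le_of_eq ?_)
    ring
  refine (sum_le_sum h5).trans ?_
  rw [← mul_sum, ← prod_add, prod_const, h.card]

end Pool.Agent.V8H62.PF
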