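import Pool.Agent.V8H62.PF.A1

set_option autoImplicit false

/-! Few pairs have a large sum (abstract form; after `Pool.Agent.R345.SS3`). -/

namespace Pool.Agent.V8H62.PF

open Finset Pool.Agent.R345.SS

variable {α β : Type}

/-- one choice of blocks -/
theorem one_choice [DecidableEq α] {k : ℕ} {y V R W : ℝ} {b : ℕ} {B : ℕ → Finset ℕ} {X : Finset ℕ} {A : Finset α} {c : ℕ → α → α → ℝ}
    {bad : Finset (α × α)} (h : DA k y V R b B X A c bad) {A' : Finset β} {κ : ℕ → β → ℕ} (h' : DB k W b B X A' κ)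
    (K : ℕ → α → ℕ → ℝ) (w : ℕ → β → ℝ) (hd : ∀ i ∈ X, ∀ j ∈ X, i ≠ j → Disjoint (B i) (B j))
    (hκ : ∀ i ∈ X, ∀ p ∈ B i, ∀ b ∈ A', κ p b < p) (hw : ∀ i ∈ X, ∀ p ∈ B i, ∀ b ∈ A', |w p b| ≤ 1)
    (hK : ∀ p a t, |K p a t| ≤ 1)
    (hc : ∀ i ∈ X, ∀ p ∈ B i, ∀ a ∈ A, ∀ a' ∈ A, |∑ t ∈ range p, K p a t * K p a' t| ≤ c p a a')
    (U : ℝ) (hU : 0 ≤ U) (G : Finset (α × β)) (hG : ∀ z ∈ G, z ∈ A ×ˢ A' ∧
      ∀ i ∈ X, U ≤ |∑ p ∈ B i, w p z.2 * K p z.1 (κ p z.2)|) :
    (G.card : ℝ) * U ^ (2 * k) ≤ 2 * (1 + R) * A.card * A'.card * (V * W + b) ^ k := by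
  classical
  refine le_trans ?_ (moment h h' K w hd hκ hw hK hc)
  rw [← sum_product']
  calc (G.card : ℝ) * U ^ (2 * k) = ∑ z ∈ G, U ^ (2 * k) := by rw [sum_const, nsmul_eq_mul]
    _ ≤ ∑ z ∈ G, ∏ i ∈ X, (∑ p ∈ B i, w p z.2 * K p z.1 (κ p z.2)) ^ 2 := by
        refine sum_le_sum fun z hz => ?_
        have hz' := (hG z hz).2
        rw [pow_mul, ← h.card, ← prod_const]
        refine prod_le_prod (fun _ _ => sq_nonneg _) fun i hi => ?_
        have h1 := hz' i hi
        rw [← sq_abs (∑ p ∈ B i, w p z.2 * K p z.1 (κ p z.2))]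
        exact pow_le_pow_left₀ hU h1 2
    _ ≤ ∑ z ∈ A ×ˢ A', ∏ i ∈ X, (∑ p ∈ B i, w p z.2 * K p z.1 (κ p z.2)) ^ 2 :=
        sum_le_sum_of_subset_of_nonneg (fun z hz => (hG z hz).1) fun _ _ _ => prod_nonneg fun _ _ => sq_nonneg _

open Pool.Agent.Y549.SP in
/-- Few pairs have a large sum. Here the summands `n z p` are integers between `-1` and `1`. -/
theorem excep [DecidableEq α] (k : ℕ) (hk : 1 ≤ k) (η M R : ℝ) (hη : 0 < η) (hη1 : η ≤ 1) (hM : 1 ≤ M) (hR : 0 ≤ R) :
    ∃ C : ℝ, 0 < C ∧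
    ∀ (P : Finset ℕ) (y W : ℝ) (A : Finset α) (A' : Finset β) (K : ℕ → α → ℕ → ℝ) (κ : ℕ → β → ℕ) (w : ℕ → β → ℝ)
      (bad : Finset (α × α)) (n : α × β → ℕ → ℤ), P.Nonempty →
      (∀ p ∈ P, p.Prime ∧ p ≠ 2 ∧ (p : ℝ) ≤ y) → 1 ≤ W →
      (∀ p ∈ P, ∀ b ∈ A', κ p b < p) → (∀ p ∈ P, ∀ b ∈ A', |w p b| ≤ 1) → (∀ p a t, |K p a t| ≤ 1) →
      (∀ a ∈ A, ∀ a' ∈ A, (a, a') ∉ bad →
        ((P.filter (fun p : ℕ => ¬ |∑ t ∈ range p, K p a t * K p a' t| ≤ M * Real.sqrt p)).card : ℝ) ≤ W) →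
      (bad.card : ℝ) ≤ R * A.card →
      (∀ b ∈ A', ∀ b' ∈ A', b ≠ b' → ((P.filter (fun p : ℕ => κ p b = κ p b')).card : ℝ) ≤ W) →
      y ^ k ≤ A.card → (P.card : ℝ) ^ (2 * k) ≤ A'.card →
      (∀ z ∈ A ×ˢ A', ∀ p ∈ P, |n z p| ≤ 1 ∧ (n z p : ℝ) = w p z.2 * K p z.1 (κ p z.2)) →
      ∀ G : Finset (α × β), (∀ z ∈ G, z ∈ A ×ˢ A' ∧ η * P.card ≤ |∑ p ∈ P, (n z p : ℝ)|) →
      (G.card : ℝ) ≤ C * (Real.sqrt y * W / P.card) ^ k * (A.card * A'.card) := by
  classical
  set K0 : ℕ := ⌈2 * (k : ℝ) / η⌉₊ with hK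
  have hkr : (1 : ℝ) ≤ k := by exact_mod_cast hk
  have hK1 : 2 * (k : ℝ) / η ≤ K0 := Nat.le_ceil _
  have hK2 : 2 * (k : ℝ) ≤ η * K0 := by
    rw [div_le_iff₀ hη] at hK1
    linarith
  have hK3 : (2 : ℝ) ≤ K0 := by nlinarith [(Nat.cast_nonneg K0 : (0 : ℝ) ≤ K0)]
  have hK0 : (0 : ℝ) < K0 := by linarith
  have hKn : 0 < K0 := by exact_mod_cast hK0
  set q0 : ℝ := 16 / η ^ 2 * (M + 2 * K0 + 1) * (2 * K0) with hq0
  have hq0p : 0 < q0 := by positivity
  set C1 : ℝ := 2 ^ K0 * (2 * (1 + R) * q0 ^ k) with hC1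
  set C2 : ℝ := (4 * K0 / η) ^ k with hC2
  have hC1p : 0 < C1 := by positivity
  have hC2p : 0 < C2 := by positivity
  refine ⟨C1 + C2 + 1, by positivity, ?_⟩
  intro P y W A A' K κ w bad n hne hP hW hκ hw hKb hgood hbad hA' hcA hcA' hn G hG
  have hN1 : (1 : ℝ) ≤ P.card := by exact_mod_cast hne.card_pos
  have hNy : (P.card : ℝ) ≤ y := card_le_y P y hP hne
  have hy1 : 1 ≤ y := hN1.trans hNy
  have hsy : 1 ≤ Real.sqrt y := Real.one_le_sqrt.2 hy1
  have hsqy : Real.sqrt y * Real.sqrt y = y := Real.mul_self_sqrt (by linarith)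
  have hsyW : 1 ≤ Real.sqrt y * W := one_le_mul_of_one_le_of_one_le hsy hW
  have hAA : (0 : ℝ) ≤ A.card * A'.card := by positivity
  set Q : ℝ := Real.sqrt y * W / P.card with hQ
  have hQ0 : 0 ≤ Q := by positivity
  have hZ : 0 ≤ Q ^ k := by positivity
  have htriv : (G.card : ℝ) ≤ A.card * A'.card := by
    have h1 : G ⊆ A ×ˢ A' := fun z hz => (hG z hz).1
    have h2 := card_le_card h1
    rw [card_product] at h2
    exact_mod_cast h2
  rcases le_or_gt 1 Q with hQ1 | hQ1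
  · -- the bound is trivial
    refine htriv.trans ?_
    have h1 : 1 ≤ Q ^ k := one_le_pow₀ hQ1
    calc (A.card * A'.card : ℝ) = 1 * 1 * (A.card * A'.card) := by ring
      _ ≤ (C1 + C2 + 1) * Q ^ k * (A.card * A'.card) := by
        refine mul_le_mul_of_nonneg_right (mul_le_mul (by linarith) h1 (by norm_num) (by positivity)) hAA
  by_cases hsmall : η * P.card < 4 * K0
  · -- few primes
    refine htriv.trans ?_
    have h2 : 1 ≤ C2 * Q ^ k := by
      rw [hC2, ← mul_pow]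
      apply one_le_pow₀
      have h3 : (1 : ℝ) / P.card ≤ Q := by
        rw [hQ]
        exact div_le_div_of_nonneg_right hsyW (by linarith)
      have h5 : 1 ≤ (4 * K0 / η) * (1 / (P.card : ℝ)) := by
        rw [div_mul_div_comm, le_div_iff₀ (by positivity)]
        linarith
      exact h5.trans (mul_le_mul_of_nonneg_left h3 (by positivity))
    have h6 : C2 * Q ^ k ≤ (C1 + C2 + 1) * Q ^ k := mul_le_mul_of_nonneg_right (by linarith) hZ
    calc (A.card * A'.card : ℝ) = 1 * (A.card * A'.card) := (one_mul _).symm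
      _ ≤ _ := mul_le_mul_of_nonneg_right (h2.trans h6) hAA
  push Not at hsmall
  have hyW : Real.sqrt y * W ≤ P.card := by
    rw [hQ, div_lt_one (by linarith)] at hQ1
    exact hQ1.le
  obtain ⟨b, hb⟩ : ∃ b, b = P.card / K0 := ⟨_, rfl⟩
  have hb1 : K0 * b ≤ P.card := by rw [hb]; exact Nat.mul_div_le _ _
  have hb2 : P.card ≤ K0 * b + K0 := by
    have h1 := Nat.div_add_mod P.card K0
    have h2 := Nat.mod_lt P.card hKn
    rw [← hb] at h1
    omega
  have hNK : 4 * (K0 : ℝ) ≤ P.card := hsmall.trans (mul_le_of_le_one_left (by linarith) hη1)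
  have hb3 : 1 ≤ b := by
    rw [hb, Nat.one_le_div_iff hKn]
    have : (K0 : ℝ) ≤ P.card := by linarith
    exact_mod_cast this
  have hbr : (1 : ℝ) ≤ b := by exact_mod_cast hb3
  have hb2r : (P.card : ℝ) ≤ 2 * K0 * b := by
    have : (P.card : ℝ) ≤ K0 * b + K0 := by exact_mod_cast hb2
    nlinarith
  have hbN : (b : ℝ) ≤ P.card := by
    have : (K0 * b : ℝ) ≤ P.card := by exact_mod_cast hb1
    nlinarith
  obtain ⟨B, hB, hD, hBL⟩ := BL.main P K0 b hb1 hb2
  set U : ℝ := η / 4 * b with hU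
  have hU0 : 0 < U := by positivity
  set c : ℕ → α → α → ℝ := fun p a a' => if |∑ t ∈ range p, K p a t * K p a' t| ≤ M * Real.sqrt p then
    min y (M * Real.sqrt y) else y with hc
  have hc0 : ∀ p a a', 0 ≤ c p a a' := by
    intro p a a'
    rw [hc]
    simp only
    split_ifs
    · exact le_min (by linarith) (by positivity)
    · linarith
  have hcy : ∀ p a a', c p a a' ≤ y := by
    intro p a a'
    rw [hc]
    simp only
    split_ifs
    · exact min_le_left _ _
    · exact le_rfl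
  have hKK : ∀ p a a', |∑ t ∈ range p, K p a t * K p a' t| ≤ p := by
    intro p a a'
    refine (abs_sum_le_sum_abs _ _).trans ((sum_le_sum (g := fun _ => (1 : ℝ)) fun t _ => ?_).trans ?_)
    · rw [abs_mul]
      exact mul_le_one₀ (hKb _ _ _) (abs_nonneg _) (hKb _ _ _)
    · simp
  have hcc : ∀ p ∈ P, ∀ a a', |∑ t ∈ range p, K p a t * K p a' t| ≤ c p a a' := by
    intro p hp a a'
    have h1 := hKK p a a'
    have h2 := (hP p hp).2.2
    rw [hc]
    simp only
    split_ifs with h3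
    · refine le_min (h1.trans h2) (h3.trans ?_)
      exact mul_le_mul_of_nonneg_left (Real.sqrt_le_sqrt h2) (by linarith)
    · exact h1.trans h2
  set V : ℝ := M * Real.sqrt y * b + y * W with hV
  -- the data
  have hdA : ∀ X ∈ powersetCard k (range K0), DA k y V R b B X A c bad := by
    intro X hX
    rw [mem_powersetCard] at hX
    refine ⟨hc0, fun i hi p hp a ha a' ha' => hcy p a a', ?_, hbad, hcA, hy1, ?_, hR, hX.2, ?_, hb3⟩
    · intro i hi a ha a' ha' hnb
      have hBi := hB i (mem_range.1 (hX.1 hi))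
      have h1 : ∀ p ∈ B i, c p a a' ≤ M * Real.sqrt y +
          (if ¬ |∑ t ∈ range p, K p a t * K p a' t| ≤ M * Real.sqrt p then y else 0) := by
        intro p hp
        rw [hc]
        simp only
        by_cases h3 : |∑ t ∈ range p, K p a t * K p a' t| ≤ M * Real.sqrt p
        · rw [if_pos h3, if_neg (not_not.2 h3), add_zero]
          exact min_le_right _ _
        · rw [if_neg h3, if_pos h3]
          have : 0 ≤ M * Real.sqrt y := by positivity
          linarith
      refine (sum_le_sum h1).trans ?_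
      rw [sum_add_distrib, sum_const, hBi.2, nsmul_eq_mul, ← sum_filter, sum_const, nsmul_eq_mul, hV]
      have h2 : (((B i).filter (fun p : ℕ => ¬ |∑ t ∈ range p, K p a t * K p a' t| ≤ M * Real.sqrt p)).card : ℝ) ≤ W := by
        refine le_trans ?_ (hgood a ha a' ha' hnb)
        exact_mod_cast card_le_card (filter_subset_filter _ hBi.1)
      have h3 := mul_le_mul_of_nonneg_right h2 (show 0 ≤ y by linarith)
      linarith
    · rw [hV]
      have h1 : Real.sqrt y * b ≤ M * (Real.sqrt y * b) := le_mul_of_one_le_left (by positivity) hM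
      have h2 : 0 ≤ y * W := by positivity
      linarith
    · intro i hi
      exact (hB i (mem_range.1 (hX.1 hi))).2
  have hdB : ∀ X ∈ powersetCard k (range K0), DB k W b B X A' κ := by
    intro X hX
    rw [mem_powersetCard] at hX
    refine ⟨?_, (pow_le_pow_left₀ (by linarith) hbN _).trans hcA', hW, hX.2, ?_, hb3⟩
    · intro i hi a ha a' ha' hne
      refine le_trans ?_ (hA' a ha a' ha' hne)
      exact_mod_cast card_le_card (filter_subset_filter _ (hB i (mem_range.1 (hX.1 hi))).1)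
    · intro i hi
      exact (hB i (mem_range.1 (hX.1 hi))).2
  set GG : Finset ℕ → Finset (α × β) := fun X =>
    G.filter (fun z => ∀ i ∈ X, U ≤ |∑ p ∈ B i, (n z p : ℝ)|) with hGG
  have hcover : G ⊆ (powersetCard k (range K0)).biUnion GG := by
    intro z hz
    have hz1 := hG z hz
    obtain ⟨X, hX1, hX2, hX3⟩ := hBL (fun p => n z p) η k
      (fun p hp => (hn z hz1.1 p hp).1)
      hη hη1 hK2 hsmall (by push_cast; exact hz1.2)
    rw [mem_biUnion]
    refine ⟨X, mem_powersetCard.2 ⟨hX1, hX2⟩, ?_⟩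
    rw [hGG]
    simp only [mem_filter]
    refine ⟨hz, fun i hi => ?_⟩
    have := hX3 i hi
    push_cast at this
    exact this
  have hGc : ∀ X ∈ powersetCard k (range K0), ((GG X).card : ℝ) ≤
      2 * (1 + R) * q0 ^ k * Q ^ k * (A.card * A'.card) := by
    intro X hX
    have hX' := mem_powersetCard.1 hX
    have h1 := one_choice (hdA X hX) (hdB X hX) K w
      (fun i hi j hj => hD i (mem_range.1 (hX'.1 hi)) j (mem_range.1 (hX'.1 hj)))
      (fun i hi p hp => hκ p ((hB i (mem_range.1 (hX'.1 hi))).1 hp))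
      (fun i hi p hp => hw p ((hB i (mem_range.1 (hX'.1 hi))).1 hp)) hKb
      (fun i hi p hp a _ a' _ => hcc p ((hB i (mem_range.1 (hX'.1 hi))).1 hp) a a') U hU0.le (GG X) (by
        intro z hz
        rw [hGG] at hz
        simp only [mem_filter] at hz
        refine ⟨(hG z hz.1).1, fun i hi => ?_⟩
        have h2 := hz.2 i hi
        rw [sum_congr rfl fun p hp => (hn z (hG z hz.1).1 p ((hB i (mem_range.1 (hX'.1 hi))).1 hp)).2] at h2
        exact h2)
    have h2 : (V * W + b) ^ k ≤ (q0 * Q) ^ k * U ^ (2 * k) := by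
      rw [pow_mul, ← mul_pow]
      refine pow_le_pow_left₀ (by positivity) ?_ _
      have h3 : V * W + b ≤ (M + 2 * K0 + 1) * (Real.sqrt y * W * b) := by
        have h4 : y * W * W ≤ 2 * K0 * (Real.sqrt y * W * b) := by
          calc y * W * W = (Real.sqrt y * Real.sqrt y) * W * W := by rw [hsqy]
            _ = (Real.sqrt y * W) * (Real.sqrt y * W) := by ring
            _ ≤ (Real.sqrt y * W) * (2 * K0 * b) := mul_le_mul_of_nonneg_left (hyW.trans hb2r) (by positivity)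
            _ = _ := by ring
        have h5 : (b : ℝ) ≤ Real.sqrt y * W * b := le_mul_of_one_le_left (by positivity) hsyW
        have h6 : V * W = M * (Real.sqrt y * W * b) + y * W * W := by rw [hV]; ring
        rw [h6]
        linarith
      refine h3.trans ?_
      have h7 : q0 * Q * U ^ 2 = (M + 2 * K0 + 1) * (Real.sqrt y * W * b) * (2 * K0 * b / P.card) := by
        rw [hq0, hQ, hU]
        field_simp
        ring
      rw [h7]
      refine le_mul_of_one_le_right (by positivity) ?_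
      rw [one_le_div (by linarith)]
      exact hb2r
    have h4 : ((GG X).card : ℝ) * U ^ (2 * k) ≤
        (2 * (1 + R) * q0 ^ k * Q ^ k * (A.card * A'.card)) * U ^ (2 * k) := by
      refine h1.trans ?_
      calc 2 * (1 + R) * (A.card : ℝ) * A'.card * (V * W + b) ^ k ≤
          2 * (1 + R) * (A.card : ℝ) * A'.card * ((q0 * Q) ^ k * U ^ (2 * k)) :=
            mul_le_mul_of_nonneg_left h2 (by positivity)
        _ = _ := by rw [mul_pow]; ring
    exact le_of_mul_le_mul_right h4 (by positivity)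
  have h5 : (G.card : ℝ) ≤ 2 ^ K0 * (2 * (1 + R) * q0 ^ k * Q ^ k * (A.card * A'.card)) := by
    have h6 : (G.card : ℝ) ≤ ∑ X ∈ powersetCard k (range K0), ((GG X).card : ℝ) := by
      exact_mod_cast (card_le_card hcover).trans card_biUnion_le
    refine h6.trans ((sum_le_sum hGc).trans ?_)
    rw [sum_const, nsmul_eq_mul]
    refine mul_le_mul_of_nonneg_right ?_ (by positivity)
    rw [card_powersetCard, card_range]
    exact_mod_cast Nat.choose_le_two_pow K0 k
  calc (G.card : ℝ) ≤ C1 * Q ^ k * (A.card * A'.card) := by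
        refine h5.trans (le_of_eq ?_)
        rw [hC1]; ring
    _ ≤ (C1 + C2 + 1) * Q ^ k * (A.card * A'.card) := by
        refine mul_le_mul_of_nonneg_right (mul_le_mul_of_nonneg_right (by linarith) hZ) hAA

end Pool.Agent.V8H62.PF
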