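import Pool.Agent.V8H62.PF.A2
import Pool.Agent.R345.SS4

set_option autoImplicit false

/-! All `y` in a dyadic interval (abstract form; after `Pool.Agent.R345.SS4`). -/

namespace Pool.Agent.V8H62.PF

open Finset Pool.Agent.R345.SS
open scoped Nat.Prime

variable {α β : Type}

/-- The symbols of the integers `n (a, b)` are given by functions `K p a (κ p b)` with small correlations for all primes
`p` which do not divide an integer `u a a'` (not zero, and at most `X`). The integers with `κ p b = κ p b'` are congruent. -/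
structure Fam (M R : ℝ) (X : ℕ) (A : Finset α) (A' : Finset β) (n : α × β → ℤ) (K : ℕ → α → ℕ → ℝ) (κ : ℕ → β → ℕ)
    (w : ℕ → β → ℝ) (bad : Finset (α × α)) (u : α → α → ℤ) (v : β → β → ℤ) : Prop where
  hκ : ∀ p : ℕ, p.Prime → ∀ b ∈ A', κ p b < p
  hw : ∀ p : ℕ, p.Prime → ∀ b ∈ A', |w p b| ≤ 1
  hK : ∀ p a t, |K p a t| ≤ 1
  hn : ∀ z ∈ A ×ˢ A', ∀ p : ℕ, p.Prime → J (n z) p = w p z.2 * K p z.1 (κ p z.2)
  hu : ∀ a ∈ A, ∀ a' ∈ A, (a, a') ∉ bad → u a a' ≠ 0 ∧ |u a a'| ≤ X
  hcor : ∀ a ∈ A, ∀ a' ∈ A, (a, a') ∉ bad → ∀ p : ℕ, p.Prime → p ≠ 2 → ¬ (p : ℤ) ∣ u a a' →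
    |∑ t ∈ range p, K p a t * K p a' t| ≤ M * Real.sqrt p
  hbad : (bad.card : ℝ) ≤ R * A.card
  hv : ∀ b ∈ A', ∀ b' ∈ A', b ≠ b' → v b b' ≠ 0 ∧ |v b b'| ≤ X
  hvκ : ∀ b ∈ A', ∀ b' ∈ A', ∀ p : ℕ, p.Prime → κ p b = κ p b' → (p : ℤ) ∣ v b b'
  hcard : (A'.card : ℝ) ≤ (2 * (X : ℝ) + 1) ^ 2

/-- all `y` in a dyadic interval -/
theorem dyadic [DecidableEq α] (k : ℕ) (hk : 1 ≤ k) (η M R : ℝ) (hη : 0 < η) (hη1 : η ≤ 1) (hM : 1 ≤ M) (hR : 0 ≤ R) :
    ∃ C : ℝ, 0 < C ∧ ∃ Y0 : ℕ, 4 ≤ Y0 ∧
    ∀ (Y X : ℕ) (A : Finset α) (A' : Finset β) (n : α × β → ℤ) (K : ℕ → α → ℕ → ℝ) (κ : ℕ → β → ℕ)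
      (w : ℕ → β → ℝ) (bad : Finset (α × α)) (u : α → α → ℤ) (v : β → β → ℤ), 2 ≤ X → Y0 ≤ Y → Fam M R X A A' n K κ w bad u v →
      (Y : ℝ) ^ (2 * k) ≤ A.card → (Y : ℝ) ^ (2 * k) ≤ A'.card →
      ∀ G : Finset (α × β), (∀ z ∈ G, z ∈ A ×ˢ A' ∧ ∃ y, (Y ≤ y ∧ y ≤ 2 * Y) ∧ η * (π y : ℝ) ≤ |SJ (n z) y|) →
      (G.card : ℝ) ≤ C * (Real.log X / Real.sqrt Y) ^ k * (A.card * A'.card) := by
  classical
  obtain ⟨C, hC, hex⟩ := excep (α := α) (β := β) k hk (η / 2) M R (by linarith) (by linarith) hM hR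
  obtain ⟨Y0, hY04, hY0⟩ := pi_facts (η / 8) (by linarith)
  obtain ⟨I, hI⟩ : ∃ I : ℕ, 96 / η ≤ I := exists_nat_ge _
  refine ⟨(I + 1) * (C * 36 ^ k), by positivity, Y0, hY04, ?_⟩
  intro Y X A A' n K κ w bad u v hX2 hYY hF hcA hcA' G hG
  obtain ⟨f1, f2, f3, f4, f5⟩ := hY0 Y hYY
  have hY4 : 4 ≤ Y := hY04.trans hYY
  have hY4r : (4 : ℝ) ≤ Y := by exact_mod_cast hY4
  set N : ℕ := π Y with hN
  have hN8 : 8 ≤ η * N := by linarith
  have hNpos : (0 : ℝ) < N := by nlinarith
  have hX2r : (2 : ℝ) ≤ X := by exact_mod_cast hX2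
  -- `Y ≤ X ^ 3`
  have hYX : (Y : ℝ) ≤ (X : ℝ) ^ 3 := by
    have h1 := hcA'.trans hF.hcard
    have h2 : (Y : ℝ) ^ 2 ≤ (Y : ℝ) ^ (2 * k) := pow_le_pow_right₀ (by linarith) (by omega)
    have h3 : (Y : ℝ) ≤ 2 * X + 1 := by
      by_contra hlt
      push Not at hlt
      nlinarith
    nlinarith [sq_nonneg ((X : ℝ) - 2)]
  have hlY : 0 < Real.log Y := Real.log_pos (by linarith)
  have hlX : Real.log Y ≤ 3 * Real.log X := by
    have h1 := Real.log_le_log (by linarith) hYX
    rw [Real.log_pow] at h1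
    exact_mod_cast h1
  have hlX0 : 0 < Real.log X := Real.log_pos (by linarith)
  set W : ℝ := 6 * Real.log X / Real.log Y with hW
  have hW1 : 1 ≤ W := by
    rw [hW, one_le_div hlY]; linarith
  have hW2 : 2 * Real.log X / Real.log Y ≤ W := by
    rw [hW]
    exact div_le_div_of_nonneg_right (by linarith) hlY.le
  -- the grid
  set h : ℕ := ⌈η / 8 * N⌉₊ with hh
  have hh1 : η / 8 * N ≤ h := Nat.le_ceil _
  have hh2 : (h : ℝ) ≤ η / 4 * N := by
    have := Nat.ceil_lt_add_one (show 0 ≤ η / 8 * (N : ℝ) by positivity)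
    linarith
  have hh0 : 0 < h := by
    have : (0 : ℝ) < h := by nlinarith
    exact_mod_cast this
  set g : ℕ → ℕ := fun i => Nat.findGreatest (fun y => π y ≤ N + i * h) (2 * Y) with hg
  have hg1 : ∀ i, π (g i) ≤ N + i * h ∧ Y ≤ g i ∧ g i ≤ 2 * Y := by
    intro i
    refine ⟨?_, ?_, Nat.findGreatest_le _⟩
    · exact Nat.findGreatest_spec (P := fun y => π y ≤ N + i * h) (m := Y) (by omega) (by omega)
    · exact Nat.le_findGreatest (by omega) (by omega)
  set P : ℕ → Finset ℕ := fun i => (Nat.primesLE (g i)).filter (fun p => Nat.sqrt Y < p) with hPd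
  set small : Finset ℕ := (Nat.primesLE Y).filter (fun p => ¬ Nat.sqrt Y < p) with hsm
  have hsmall : (small.card : ℝ) ≤ η / 8 * N := by
    refine le_trans ?_ f3
    have h1 : small ⊆ Icc 1 (Nat.sqrt Y) := by
      intro p hp
      rw [hsm, mem_filter, Nat.mem_primesLE] at hp
      rw [mem_Icc]
      exact ⟨hp.1.2.one_lt.le, not_lt.1 hp.2⟩
    have h2 := card_le_card h1
    rw [Nat.card_Icc] at h2
    have h3 : (small.card : ℝ) ≤ Nat.sqrt Y := by
      have : small.card ≤ Nat.sqrt Y := by omega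
      exact_mod_cast this
    exact h3.trans Real.nat_sqrt_le_real_sqrt
  have hsplit : ∀ i n, SJ n (g i) = ∑ p ∈ P i, J n p + ∑ p ∈ small, J n p := by
    intro i n
    have h1 : small = (Nat.primesLE (g i)).filter (fun p => ¬ Nat.sqrt Y < p) := by
      rw [hsm]
      ext p
      rw [mem_filter, mem_filter, Nat.mem_primesLE, Nat.mem_primesLE]
      have h2 := (hg1 i).2.1
      have h3 := Nat.sqrt_le_self Y
      constructor
      · rintro ⟨⟨h4, h5⟩, h6⟩
        exact ⟨⟨by omega, h5⟩, h6⟩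
      · rintro ⟨⟨h4, h5⟩, h6⟩
        exact ⟨⟨by omega, h5⟩, h6⟩
    rw [h1, SJ]
    exact (sum_filter_add_sum_filter_not _ _ _).symm
  have hcard : ∀ i, ((π (g i) : ℕ) : ℝ) = (P i).card + small.card := by
    intro i
    have h1 : small = (Nat.primesLE (g i)).filter (fun p => ¬ Nat.sqrt Y < p) := by
      rw [hsm]
      ext p
      rw [mem_filter, mem_filter, Nat.mem_primesLE, Nat.mem_primesLE]
      have h2 := (hg1 i).2.1
      have h3 := Nat.sqrt_le_self Y
      constructor
      · rintro ⟨⟨h4, h5⟩, h6⟩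
        exact ⟨⟨by omega, h5⟩, h6⟩
      · rintro ⟨⟨h4, h5⟩, h6⟩
        exact ⟨⟨by omega, h5⟩, h6⟩
    rw [h1, ← Nat.primesLE_card_eq_primeCounting, ← card_filter_add_card_filter_not (s := Nat.primesLE (g i)) (fun p => Nat.sqrt Y < p)]
    push_cast
    rfl
  have habs : ∀ (T : Finset ℕ) (n : ℤ), |∑ p ∈ T, J n p| ≤ T.card := by
    intro T n
    refine (abs_sum_le_sum_abs _ _).trans ((sum_le_sum (g := fun _ => (1 : ℝ)) fun p _ => J_abs n p).trans ?_)
    simp
  -- covering
  have hcover : G ⊆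
      (range (I + 1)).biUnion (fun i => (A ×ˢ A').filter (fun z : α × β =>
        η / 2 * (P i).card ≤ |∑ p ∈ P i, J (n z) p|)) := by
    intro z hz
    obtain ⟨hzA, y, hy, hbad⟩ := hG z hz
    have hmono : N ≤ π y := Nat.monotone_primeCounting hy.1
    set i : ℕ := (π y - N) / h with hi
    have hi1 : i * h ≤ π y - N := Nat.div_mul_le_self _ _
    have hi2 : π y - N < i * h + h := by
      have := Nat.lt_div_mul_add (a := π y - N) hh0
      exact this
    have hπ2 : π y ≤ π (2 * Y) := Nat.monotone_primeCounting hy.2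
    have hiI : i < I + 1 := by
      have h1 : (i : ℝ) * h ≤ 12 * N := by
        have h2 : ((i * h : ℕ) : ℝ) ≤ (π y : ℝ) := by exact_mod_cast hi1.trans (Nat.sub_le _ _)
        have h3 : (π y : ℝ) ≤ (π (2 * Y) : ℝ) := by exact_mod_cast hπ2
        push_cast at h2
        linarith
      have h4 : (i : ℝ) * (η / 8 * N) ≤ 12 * N := (mul_le_mul_of_nonneg_left hh1 (Nat.cast_nonneg _)).trans h1
      have h5 : (i : ℝ) * η ≤ 96 := by
        have : (i : ℝ) * η * N ≤ 96 * N := by nlinarith
        exact le_of_mul_le_mul_right this hNpos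
      have h6 : (i : ℝ) ≤ 96 / η := by rw [le_div_iff₀ hη]; exact h5
      have h7 : (i : ℝ) ≤ I := h6.trans hI
      have : i ≤ I := by exact_mod_cast h7
      omega
    rw [mem_biUnion]
    refine ⟨i, mem_range.2 hiI, ?_⟩
    rw [mem_filter]
    refine ⟨hzA, ?_⟩
    -- compare `g i` and `y`
    have hgi := hg1 i
    have hle : N + i * h ≤ π y := by omega
    have hgy : π (g i) = N + i * h ∨ (y ≤ g i) := by
      by_cases hyg : y ≤ g i
      · right; exact hyg
      · left
        push Not at hyg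
        refine le_antisymm hgi.1 ?_
        by_contra hlt
        push Not at hlt
        have h1 : π (g i + 1) ≤ π (g i) + 1 := by
          rw [← Nat.primesLE_card_eq_primeCounting, ← Nat.primesLE_card_eq_primeCounting]
          have : Nat.primesLE (g i + 1) ⊆ insert (g i + 1) (Nat.primesLE (g i)) := by
            intro p hp
            rw [Nat.mem_primesLE] at hp
            rw [mem_insert, Nat.mem_primesLE]
            rcases Nat.lt_or_ge (g i) p with h2 | h2
            · left; omega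
            · right; exact ⟨h2, hp.2⟩
          exact (card_le_card this).trans (card_insert_le _ _)
        have h2 : g i + 1 ≤ g i := Nat.le_findGreatest (P := fun y => π y ≤ N + i * h) (by omega) (by omega)
        omega
    have hdiff : |SJ (n z) y - SJ (n z) (g i)| ≤ h := by
      rcases hgy with hgy | hgy
      · by_cases hyg : y ≤ g i
        · have h1 : π y = π (g i) := le_antisymm (Nat.monotone_primeCounting hyg) (by omega)
          have h2 : Nat.primesLE y = Nat.primesLE (g i) := by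
            apply eq_of_subset_of_card_le (Nat.primesLE_mono hyg)
            rw [Nat.primesLE_card_eq_primeCounting, Nat.primesLE_card_eq_primeCounting, h1]
          rw [SJ, SJ, h2, sub_self, abs_zero]
          exact Nat.cast_nonneg _
        · push Not at hyg
          have h1 : Nat.primesLE (g i) ⊆ Nat.primesLE y := Nat.primesLE_mono hyg.le
          have h2 : SJ (n z) y - SJ (n z) (g i) =
              ∑ p ∈ Nat.primesLE y \ Nat.primesLE (g i), J (n z) p := by
            rw [SJ, SJ, ← sum_sdiff h1]; ring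
          rw [h2]
          refine (habs _ _).trans ?_
          rw [card_sdiff_of_subset h1, Nat.primesLE_card_eq_primeCounting, Nat.primesLE_card_eq_primeCounting]
          have : π y - π (g i) ≤ h := by omega
          exact_mod_cast this
      · have h1 : π y = π (g i) := le_antisymm (Nat.monotone_primeCounting hgy) (by omega)
        have h2 : Nat.primesLE y = Nat.primesLE (g i) := by
          apply eq_of_subset_of_card_le (Nat.primesLE_mono hgy)
          rw [Nat.primesLE_card_eq_primeCounting, Nat.primesLE_card_eq_primeCounting, h1]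
        rw [SJ, SJ, h2, sub_self, abs_zero]
        exact Nat.cast_nonneg _
    have hNy : (N : ℝ) ≤ (π y : ℝ) := by exact_mod_cast hmono
    have hgy' : ((π (g i) : ℕ) : ℝ) ≤ (π y : ℝ) := by
      have : π (g i) ≤ π y := by omega
      exact_mod_cast this
    have hPi : ((P i).card : ℝ) ≤ (π y : ℝ) := by
      have h1 := hcard i
      have h2 : (0 : ℝ) ≤ small.card := Nat.cast_nonneg _
      linarith
    have h3 := hsplit i (n z)
    have h4 := habs small (n z)
    have h5 : |SJ (n z) y| ≤ |∑ p ∈ P i, J (n z) p| + small.card + h := by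
      have e : SJ (n z) y = ∑ p ∈ P i, J (n z) p + ∑ p ∈ small, J (n z) p +
          (SJ (n z) y - SJ (n z) (g i)) := by rw [← h3]; ring
      rw [e]
      refine (abs_add_le _ _).trans (add_le_add ((abs_add_le _ _).trans (by linarith)) hdiff)
    have h6 : η / 2 * (P i).card ≤ η / 2 * (π y : ℝ) := mul_le_mul_of_nonneg_left hPi (by linarith)
    have h7 : η / 8 * N + η / 4 * N ≤ η / 2 * (π y : ℝ) := by
      have : η * N ≤ η * (π y : ℝ) := mul_le_mul_of_nonneg_left hNy hη.le
      linarith [mul_pos hη hNpos]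
    linarith
  -- each grid point
  have heach : ∀ i ∈ range (I + 1), (((A ×ˢ A').filter (fun z : α × β =>
        η / 2 * (P i).card ≤ |∑ p ∈ P i, J (n z) p|)).card : ℝ) ≤
      C * 36 ^ k * (Real.log X / Real.sqrt Y) ^ k * (A.card * A'.card) := by
    intro i _
    have hgi := hg1 i
    have hgN : (N : ℝ) ≤ ((π (g i) : ℕ) : ℝ) := by exact_mod_cast Nat.monotone_primeCounting hgi.2.1
    have hPN : (N : ℝ) / 2 ≤ (P i).card := by
      have h1 := hcard i
      have h2 : η / 8 * (N : ℝ) ≤ N / 8 := by nlinarith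
      linarith
    have hPpos : (0 : ℝ) < (P i).card := by linarith
    have hPne : (P i).Nonempty := card_pos.1 (by exact_mod_cast hPpos)
    have hPY : ((P i).card : ℝ) ≤ Y := by
      have h1 := hcard i
      have h2 : ((π (g i) : ℕ) : ℝ) ≤ (π (2 * Y) : ℝ) := by exact_mod_cast Nat.monotone_primeCounting hgi.2.2
      have h3 : (0 : ℝ) ≤ small.card := Nat.cast_nonneg _
      linarith
    have hPp : ∀ p ∈ P i, p.Prime ∧ Nat.sqrt Y < p := by
      intro p hp
      rw [hPd] at hp
      simp only [mem_filter, Nat.mem_primesLE] at hp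
      exact ⟨hp.1.2, hp.2⟩
    have hs2 : 2 ≤ Nat.sqrt Y := by
      rw [Nat.le_sqrt']; omega
    have hY0' : (0 : ℝ) < Y := by linarith
    have h1 := hex (P i) (2 * Y) W A A' K κ w bad (fun z p => jacobiSym (n z) p) hPne ?_ hW1 ?_ ?_ hF.hK ?_ hF.hbad ?_ ?_ ?_ ?_
      ((A ×ˢ A').filter (fun z : α × β => η / 2 * (P i).card ≤ |∑ p ∈ P i, J (n z) p|)) ?_
    · refine h1.trans ?_
      have hAA : (0 : ℝ) ≤ A.card * A'.card := by positivity
      refine mul_le_mul_of_nonneg_right ?_ hAA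
      rw [show C * 36 ^ k * (Real.log X / Real.sqrt Y) ^ k = C * (36 * (Real.log X / Real.sqrt Y)) ^ k by rw [mul_pow]; ring]
      refine mul_le_mul_of_nonneg_left (pow_le_pow_left₀ (by positivity) ?_ _) hC.le
      rw [div_le_iff₀ (by positivity)]
      have h2 : (Y : ℝ) / (4 * Real.log Y) ≤ (P i).card := by
        refine le_trans ?_ hPN
        have : (Y : ℝ) / (4 * Real.log Y) = (Y / (2 * Real.log Y)) / 2 := by field_simp; norm_num
        rw [this]
        linarith
      have h3 : Real.sqrt (2 * Y) ≤ 3 / 2 * Real.sqrt Y := by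
        rw [show (3 / 2 : ℝ) = Real.sqrt (9 / 4) by
          rw [show (9 / 4 : ℝ) = (3 / 2) ^ 2 by norm_num, Real.sqrt_sq (by norm_num)], ← Real.sqrt_mul (by norm_num)]
        exact Real.sqrt_le_sqrt (by linarith)
      have h4 : 3 / 2 * Real.sqrt Y * W = 36 * (Real.log X / Real.sqrt Y) * (Y / (4 * Real.log Y)) := by
        have hs : Real.sqrt Y ≠ 0 := (Real.sqrt_pos.2 hY0').ne'
        have hs2 : Real.sqrt Y * Real.sqrt Y = Y := Real.mul_self_sqrt hY0'.le
        rw [hW]
        field_simp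
        rw [show Real.sqrt (Y : ℝ) ^ 2 = Y by rw [sq, hs2]]
        ring
      calc Real.sqrt (2 * Y) * W ≤ 3 / 2 * Real.sqrt Y * W := mul_le_mul_of_nonneg_right h3 (by linarith)
        _ = 36 * (Real.log X / Real.sqrt Y) * (Y / (4 * Real.log Y)) := h4
        _ ≤ _ := mul_le_mul_of_nonneg_left h2 (by positivity)
    · intro p hp
      have h2 := hPp p hp
      refine ⟨h2.1, by omega, ?_⟩
      have h3 : p ≤ 2 * Y := by
        have hp' := hp
        rw [hPd] at hp'
        simp only [mem_filter, Nat.mem_primesLE] at hp'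
        omega
      exact_mod_cast h3
    · intro p hp
      exact hF.hκ p (hPp p hp).1
    · intro p hp
      exact hF.hw p (hPp p hp).1
    · intro a ha a' ha' hne
      have h2 := few_large Y X hY4 (P i) hPp _ (hF.hu a ha a' ha' hne).1 (hF.hu a ha a' ha' hne).2
      refine le_trans ?_ (h2.trans hW2)
      refine Nat.cast_le.2 (card_le_card fun p hp => ?_)
      rw [mem_filter] at hp ⊢
      refine ⟨hp.1, ?_⟩
      by_contra hnd
      exact hp.2 (hF.hcor a ha a' ha' hne p (hPp p hp.1).1 (by have := (hPp p hp.1).2; omega) hnd)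
    · intro b hb b' hb' hne
      have h2 := few_large Y X hY4 (P i) hPp _ (hF.hv b hb b' hb' hne).1 (hF.hv b hb b' hb' hne).2
      refine le_trans ?_ (h2.trans hW2)
      refine Nat.cast_le.2 (card_le_card fun p hp => ?_)
      rw [mem_filter] at hp ⊢
      exact ⟨hp.1, hF.hvκ b hb b' hb' p (hPp p hp.1).1 hp.2⟩
    · refine le_trans ?_ hcA
      rw [pow_mul]
      refine pow_le_pow_left₀ (by positivity) ?_ _
      nlinarith
    · exact (pow_le_pow_left₀ hPpos.le hPY _).trans hcA'
    · intro z hz p hp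
      refine ⟨?_, hF.hn z hz p (hPp p hp).1⟩
      rcases jacobiSym.trichotomy (n z) p with h | h | h <;> rw [h] <;> simp
    · intro z hz
      rw [mem_filter] at hz
      exact hz
  have h8 := card_le_card hcover
  have h9 : (G.card : ℝ) ≤
      ∑ i ∈ range (I + 1), (((A ×ˢ A').filter (fun z : α × β =>
        η / 2 * (P i).card ≤ |∑ p ∈ P i, J (n z) p|)).card : ℝ) := by
    exact_mod_cast h8.trans card_biUnion_le
  refine h9.trans ((sum_le_sum heach).trans ?_)
  rw [sum_const, card_range, nsmul_eq_mul]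
  apply le_of_eq
  push_cast
  ring

end Pool.Agent.V8H62.PF
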