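import Pool.Agent.H341R2.WeilSharp
import Pool.Agent.R345.SS1

set_option autoImplicit false

/-! Correlations of the quadratic characters of the values of two integer polynomials modulo `p`. -/

namespace Pool.Agent.V8H62.PF

open Polynomial Finset Pool.Agent.R345.SS

/-- the resultant of a polynomial and its derivative -/
noncomputable def rs (f : ℤ[X]) : ℤ := resultant f (derivative f)

theorem rs_ne_zero {f : ℤ[X]} (hs : Squarefree (f.map (Int.castRingHom ℚ))) : rs f ≠ 0 := by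
  have hsep : IsCoprime (f.map (Int.castRingHom ℚ)) (derivative (f.map (Int.castRingHom ℚ))) :=
    PerfectField.separable_iff_squarefree.2 hs
  have h1 := resultant_ne_zero _ _ hsep
  intro h0
  apply h1
  have hinj : Function.Injective (Int.castRingHom ℚ) := RingHom.injective_int _
  have e : resultant (f.map (Int.castRingHom ℚ)) (derivative (f.map (Int.castRingHom ℚ))) =
      (Int.castRingHom ℚ) (resultant f (derivative f)) := by
    rw [derivative_map, ← resultant_map_map, natDegree_map_eq_of_injective hinj, natDegree_map_eq_of_injective hinj]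
  rw [e]
  have h2 : resultant f (derivative f) = 0 := h0
  rw [h2, map_zero]

theorem coprime_mod (p : ℕ) [Fact p.Prime] (f : ℤ[X]) (hd : 0 < f.natDegree) (h : ¬ (p : ℤ) ∣ rs f) :
    Squarefree (f.map (Int.castRingHom (ZMod p))) := by
  obtain ⟨a, b, -, -, hab⟩ := exists_mul_add_mul_eq_C_resultant f (derivative f) le_rfl le_rfl (Or.inl hd.ne')
  have h1 := congrArg (Polynomial.map (Int.castRingHom (ZMod p))) hab
  rw [Polynomial.map_add, Polynomial.map_mul, Polynomial.map_mul, ← derivative_map, Polynomial.map_C] at h1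
  have h2 : (Int.castRingHom (ZMod p)) (rs f) ≠ 0 := by
    intro h3
    exact h ((ZMod.intCast_zmod_eq_zero_iff_dvd _ _).1 h3)
  have h3 : IsCoprime (f.map (Int.castRingHom (ZMod p))) (derivative (f.map (Int.castRingHom (ZMod p)))) := by
    refine ⟨C ((Int.castRingHom (ZMod p)) (rs f))⁻¹ * a.map (Int.castRingHom (ZMod p)), C ((Int.castRingHom (ZMod p)) (rs f))⁻¹ * b.map (Int.castRingHom (ZMod p)), ?_⟩
    have e : C ((Int.castRingHom (ZMod p)) (rs f))⁻¹ * C ((Int.castRingHom (ZMod p)) (rs f)) = 1 := by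
      rw [← C_mul, inv_mul_cancel₀ h2, C_1]
    rw [← e]
    have h4 : C ((Int.castRingHom (ZMod p)) (rs f)) = C ((Int.castRingHom (ZMod p)) (f.resultant (derivative f))) := rfl
    rw [h4, ← h1]
    ring
  exact Separable.squarefree h3

/-- `f g` is not a constant times a square -/
theorem not_sq {F : Type} [Field F] (f g : F[X]) (hf : Squarefree f) (hg : Squarefree g) (i j : ℕ)
    (hij : f.coeff i * g.coeff j ≠ f.coeff j * g.coeff i) (c : F) (h : F[X]) : f * g ≠ C c * h ^ 2 := by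
  classical
  intro e
  have hf0 : f ≠ 0 := hf.ne_zero
  have hg0 : g ≠ 0 := hg.ne_zero
  have hc0 : c ≠ 0 := by
    rintro rfl
    rw [C_0, zero_mul] at e
    exact mul_ne_zero hf0 hg0 e
  have hcu : IsUnit (C c) := isUnit_C.2 (isUnit_iff_ne_zero.2 hc0)
  obtain ⟨d, hd⟩ : ∃ d, d = EuclideanDomain.gcd f g := ⟨_, rfl⟩
  have hdf : d ∣ f := hd ▸ EuclideanDomain.gcd_dvd_left f g
  have hdg : d ∣ g := hd ▸ EuclideanDomain.gcd_dvd_right f g
  have hd0 : d ≠ 0 := fun h0 => hf0 (by rw [h0, zero_dvd_iff] at hdf; exact hdf)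
  obtain ⟨f1, hf1⟩ := hdf
  obtain ⟨g1, hg1⟩ := hdg
  have hcop : IsCoprime f1 g1 := by
    have h1 := EuclideanDomain.gcd_eq_gcd_ab f g
    rw [← hd] at h1
    refine ⟨EuclideanDomain.gcdA f g, EuclideanDomain.gcdB f g, ?_⟩
    apply mul_left_cancel₀ hd0
    have h2 : d * (EuclideanDomain.gcdA f g * f1 + EuclideanDomain.gcdB f g * g1) =
        (d * f1) * EuclideanDomain.gcdA f g + (d * g1) * EuclideanDomain.gcdB f g := by ring
    rw [h2, ← hf1, ← hg1, mul_one]
    exact h1.symm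
  have hdsq : Squarefree d := hf.squarefree_of_dvd ⟨f1, hf1⟩
  have hsq : Squarefree (f1 * g1) := by
    rw [squarefree_mul_iff]
    refine ⟨hcop.isRelPrime, hf.squarefree_of_dvd ⟨d, by rw [hf1]; ring⟩, hg.squarefree_of_dvd ⟨d, by rw [hg1]; ring⟩⟩
  have hdh : d ∣ h := by
    have h1 : d ∣ C c * h ^ 2 := by
      rw [← e]
      exact ⟨f1 * g, by rw [hf1]; ring⟩
    rw [IsUnit.dvd_mul_left hcu] at h1
    exact (hdsq.dvd_pow_iff_dvd (by norm_num)).1 h1
  obtain ⟨h1, hh1⟩ := hdh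
  have e2 : f1 * g1 = C c * h1 ^ 2 := by
    apply mul_left_cancel₀ (pow_ne_zero 2 hd0)
    calc d ^ 2 * (f1 * g1) = (d * f1) * (d * g1) := by ring
      _ = C c * h ^ 2 := by rw [← hf1, ← hg1, e]
      _ = _ := by rw [hh1]; ring
  have hu : IsUnit h1 := hsq h1 ⟨C c, by rw [e2]; ring⟩
  have hu2 : IsUnit (f1 * g1) := by
    rw [e2]
    exact hcu.mul (hu.pow 2)
  obtain ⟨a, -, ha⟩ := Polynomial.isUnit_iff.1 (isUnit_of_mul_isUnit_left hu2)
  obtain ⟨b, -, hb⟩ := Polynomial.isUnit_iff.1 (isUnit_of_mul_isUnit_right hu2)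
  apply hij
  rw [hf1, hg1, ← ha, ← hb, coeff_mul_C, coeff_mul_C, coeff_mul_C, coeff_mul_C]
  ring

/-- proportional polynomials -/
def Prp (f g : ℤ[X]) : Prop := ∀ i j, f.coeff i * g.coeff j = f.coeff j * g.coeff i

/-- a minor -/
noncomputable def mn (f g : ℤ[X]) : ℤ := by
  classical
  exact if h : ∃ z : ℕ × ℕ, f.coeff z.1 * g.coeff z.2 ≠ f.coeff z.2 * g.coeff z.1 then
    f.coeff h.choose.1 * g.coeff h.choose.2 - f.coeff h.choose.2 * g.coeff h.choose.1 else 0

theorem mn_spec {f g : ℤ[X]} (h : ¬ Prp f g) : mn f g ≠ 0 ∧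
    ∃ i j, mn f g = f.coeff i * g.coeff j - f.coeff j * g.coeff i := by
  classical
  have h1 : ∃ z : ℕ × ℕ, f.coeff z.1 * g.coeff z.2 ≠ f.coeff z.2 * g.coeff z.1 := by
    unfold Prp at h
    push Not at h
    obtain ⟨i, j, hij⟩ := h
    exact ⟨(i, j), hij⟩
  have e : mn f g = f.coeff h1.choose.1 * g.coeff h1.choose.2 - f.coeff h1.choose.2 * g.coeff h1.choose.1 := by
    unfold mn
    rw [dif_pos h1]
  exact ⟨by rw [e]; exact sub_ne_zero.2 h1.choose_spec, _, _, e⟩

theorem J_eval (p : ℕ) [Fact p.Prime] (f : ℤ[X]) (t : ℕ) :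
    J (f.eval (t : ℤ)) p = ((quadraticChar (ZMod p) ((f.map (Int.castRingHom (ZMod p))).eval (t : ZMod p)) : ℤ) : ℝ) := by
  unfold J
  rw [← jacobiSym.legendreSym.to_jacobiSym]
  unfold legendreSym
  congr 2
  have h1 := eval_intCast_map (Int.castRingHom (ZMod p)) f (t : ℤ)
  rw [Int.cast_natCast] at h1
  rw [h1]
  rfl

theorem corr (p : ℕ) [hp : Fact p.Prime] (hp2 : p ≠ 2) (m : ℕ) (f g : ℤ[X]) (hf : 0 < f.natDegree) (hg : 0 < g.natDegree)
    (hfm : f.natDegree ≤ m) (hgm : g.natDegree ≤ m) (hrf : ¬ (p : ℤ) ∣ rs f) (hrg : ¬ (p : ℤ) ∣ rs g)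
    (hP : ¬ Prp f g) (hmn : ¬ (p : ℤ) ∣ mn f g) :
    |∑ t ∈ range p, J (f.eval (t : ℤ)) p * J (g.eval (t : ℤ)) p| ≤ 2 * m * Real.sqrt p := by
  classical
  have hp0 : NeZero p := ⟨hp.out.ne_zero⟩
  set φ := Int.castRingHom (ZMod p) with hφ
  obtain ⟨-, i, j, hij⟩ := mn_spec hP
  have hij' : (f.map φ).coeff i * (g.map φ).coeff j ≠ (f.map φ).coeff j * (g.map φ).coeff i := by
    rw [coeff_map, coeff_map, coeff_map, coeff_map, ← map_mul, ← map_mul, ← sub_ne_zero, ← map_sub, ← hij]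
    intro h3
    exact hmn ((ZMod.intCast_zmod_eq_zero_iff_dvd _ _).1 h3)
  have hns := not_sq _ _ (coprime_mod p f hf hrf) (coprime_mod p g hg hrg) i j hij'
  have hdeg : 1 ≤ (f.map φ * g.map φ).natDegree := by
    by_contra h0
    have h1 : (f.map φ * g.map φ).natDegree = 0 := by omega
    rw [natDegree_eq_zero] at h1
    obtain ⟨c, hc⟩ := h1
    exact hns c 1 (by rw [← hc]; ring)
  have hring : ringChar (ZMod p) ≠ 2 := by
    rw [ZMod.ringChar_zmod_n]
    exact hp2
  have h1 := Pool.Agent.H341R2.Sharp.weil_sharp hring (f.map φ * g.map φ) hdeg hns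
  rw [ZMod.card] at h1
  have h2 : ∑ t ∈ range p, J (f.eval (t : ℤ)) p * J (g.eval (t : ℤ)) p =
      ∑ x : ZMod p, ((quadraticChar (ZMod p) ((f.map φ * g.map φ).eval x) : ℤ) : ℝ) := by
    rw [← sum_zmod p (fun x => ((quadraticChar (ZMod p) ((f.map φ * g.map φ).eval x) : ℤ) : ℝ))]
    refine sum_congr rfl fun t _ => ?_
    rw [J_eval, J_eval, eval_mul, map_mul]
    push_cast
    rfl
  rw [h2]
  refine h1.trans ?_
  refine mul_le_mul_of_nonneg_right ?_ (Real.sqrt_nonneg _)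
  have h3 : (f.map φ * g.map φ).natDegree ≤ m + m := by
    refine natDegree_mul_le.trans (add_le_add ?_ ?_)
    · exact natDegree_map_le.trans hfm
    · exact natDegree_map_le.trans hgm
  have h4 : ((f.map φ * g.map φ).natDegree : ℝ) ≤ m + m := by exact_mod_cast h3
  linarith

end Pool.Agent.V8H62.PF
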