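import Pool.Agent.V8H62.PF.B1
import Pool.Agent.V8H62.PF.A4

set_option autoImplicit false

/-! Arbitrary sets of integer polynomials and arbitrary sets of integers. -/

namespace Pool.Agent.V8H62.PF

open Polynomial Finset Pool.Agent.R345.SS
open scoped Nat

theorem rs_le (m H : ℕ) (hm : 1 ≤ m) (hH : 1 ≤ H) (f : ℤ[X]) (hfm : f.natDegree ≤ m) (hf : ∀ i, |f.coeff i| ≤ H) :
    |rs f| ≤ (((2 * m)! * (m * H) ^ (2 * m) : ℕ) : ℤ) := by
  have hx : ∀ i j, AbsoluteValue.abs (sylvester f (derivative f) f.natDegree (derivative f).natDegree i j) ≤ ((m * H : ℕ) : ℤ) := by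
    have h1 : ∀ i, |f.coeff i| ≤ ((m * H : ℕ) : ℤ) := by
      intro i
      refine (hf i).trans ?_
      exact_mod_cast Nat.le_mul_of_pos_left H (by omega)
    have h2 : ∀ i, |(derivative f).coeff i| ≤ ((m * H : ℕ) : ℤ) := by
      intro i
      rw [coeff_derivative, abs_mul]
      by_cases hi : i + 1 ≤ m
      · have h3 : |((i : ℤ) + 1)| ≤ m := by
          rw [abs_of_nonneg (by positivity)]
          exact_mod_cast hi
        push_cast
        rw [mul_comm (m : ℤ)]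
        exact mul_le_mul (hf _) h3 (abs_nonneg _) (by positivity)
      · rw [coeff_eq_zero_of_natDegree_lt (by omega), abs_zero, zero_mul]
        positivity
    have h0 : (0 : ℤ) ≤ ((m * H : ℕ) : ℤ) := by positivity
    intro i j
    induction j using Fin.addCases with
    | left j =>
      simp only [sylvester, Matrix.of_apply, Fin.addCases_left]
      split_ifs
      · exact h2 _
      · simpa using h0
    | right j =>
      simp only [sylvester, Matrix.of_apply, Fin.addCases_right]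
      split_ifs
      · exact h1 _
      · simpa using h0
  have h1 := Matrix.det_le hx
  have h2 : |rs f| ≤ (Fintype.card (Fin (f.natDegree + (derivative f).natDegree)))! •
      ((m * H : ℕ) : ℤ) ^ (Fintype.card (Fin (f.natDegree + (derivative f).natDegree))) := h1
  rw [Fintype.card_fin, nsmul_eq_mul] at h2
  refine h2.trans ?_
  have h3 : f.natDegree + (derivative f).natDegree ≤ 2 * m := by
    have := natDegree_derivative_le f
    omega
  have h4 : 1 ≤ m * H := Nat.mul_pos hm hH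
  exact_mod_cast Nat.mul_le_mul (Nat.factorial_le h3) (Nat.pow_le_pow_right h4 h3)

theorem mn_le (H : ℕ) (f g : ℤ[X]) (hP : ¬ Prp f g) (hf : ∀ i, |f.coeff i| ≤ H) (hg : ∀ i, |g.coeff i| ≤ H) :
    |mn f g| ≤ ((2 * H ^ 2 : ℕ) : ℤ) := by
  obtain ⟨-, i, j, h⟩ := mn_spec hP
  rw [h]
  have h0 : (0 : ℤ) ≤ H := by positivity
  have h1 : |f.coeff i * g.coeff j| ≤ (H : ℤ) * H := by
    rw [abs_mul]; exact mul_le_mul (hf i) (hg j) (abs_nonneg _) h0
  have h2 : |f.coeff j * g.coeff i| ≤ (H : ℤ) * H := by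
    rw [abs_mul]; exact mul_le_mul (hf j) (hg i) (abs_nonneg _) h0
  refine (abs_sub _ _).trans ?_
  push_cast
  nlinarith

theorem eval_le (m H : ℕ) (hH : 1 ≤ H) (f : ℤ[X]) (hfm : f.natDegree ≤ m) (hf : ∀ i, |f.coeff i| ≤ H) (b : ℤ) (hb : |b| ≤ H) :
    |f.eval b| ≤ (((m + 1) * H ^ (m + 1) : ℕ) : ℤ) := by
  rw [eval_eq_sum_range' (n := m + 1) (by omega)]
  refine (abs_sum_le_sum_abs _ _).trans ((sum_le_sum (g := fun _ => ((H ^ (m + 1) : ℕ) : ℤ)) fun i hi => ?_).trans ?_)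
  · rw [mem_range] at hi
    rw [abs_mul, abs_pow]
    have h0 : (0 : ℤ) ≤ H := by positivity
    have h1 : |b| ^ i ≤ (H : ℤ) ^ m := by
      refine (pow_le_pow_left₀ (abs_nonneg _) hb i).trans ?_
      exact_mod_cast Nat.pow_le_pow_right hH (by omega)
    push_cast
    rw [pow_succ' (H : ℤ)]
    exact mul_le_mul (hf i) h1 (by positivity) h0
  · rw [sum_const, card_range, nsmul_eq_mul]
    push_cast
    exact le_rfl

/-- the exponent -/
def ex (m : ℕ) : ℕ := 2 * ((2 * m)! * m ^ (2 * m)) ^ 2 + 4 * m + 2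

theorem size (m H : ℕ) (hm : 1 ≤ m) (hH : 2 ≤ H) :
    ((2 * m)! * (m * H) ^ (2 * m)) ^ 2 * (2 * H ^ 2) ≤ H ^ ex m ∧ (m + 1) * H ^ (m + 1) ≤ H ^ ex m ∧
      2 * H ≤ H ^ ex m := by
  set K : ℕ := 2 * ((2 * m)! * m ^ (2 * m)) ^ 2 with hK
  have hle : ∀ a b : ℕ, a ≤ b → H ^ a ≤ H ^ b := fun a b h => Nat.pow_le_pow_right (by omega) h
  have hpow : ∀ a : ℕ, a ≤ H ^ a := fun a => (Nat.lt_two_pow_self.le).trans (Nat.pow_le_pow_left hH a)
  refine ⟨?_, ?_, ?_⟩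
  · have e : ((2 * m)! * (m * H) ^ (2 * m)) ^ 2 * (2 * H ^ 2) = K * H ^ (4 * m + 2) := by
      rw [hK, mul_pow m H]
      ring
    rw [e]
    calc K * H ^ (4 * m + 2) ≤ H ^ K * H ^ (4 * m + 2) := Nat.mul_le_mul_right _ (hpow K)
      _ = H ^ ex m := by rw [← pow_add]; rfl
  · calc (m + 1) * H ^ (m + 1) ≤ H ^ (m + 1) * H ^ (m + 1) := Nat.mul_le_mul_right _ (hpow (m + 1))
      _ = H ^ (2 * m + 2) := by rw [← pow_add]; congr 1; ring
      _ ≤ H ^ ex m := hle _ _ (by unfold ex; omega)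
  · calc 2 * H ≤ H * H := Nat.mul_le_mul_right _ hH
      _ = H ^ 2 := by ring
      _ ≤ H ^ ex m := hle _ _ (by unfold ex; omega)

/-- admissible polynomials -/
def Adm (m H : ℕ) (f : ℤ[X]) : Prop := 0 < f.natDegree ∧ f.natDegree ≤ m ∧ Squarefree (f.map (Int.castRingHom ℚ)) ∧
  ∀ i, |f.coeff i| ≤ H

open Classical in
theorem the_fam {α : Type} (m H R : ℕ) (hm : 1 ≤ m) (hH : 2 ≤ H) (A : Finset α) (Φ : α → ℤ[X]) (A' : Finset ℤ)
    (hA : ∀ f ∈ A, Adm m H (Φ f))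
    (hR : ∀ f ∈ A, (A.filter (fun g => Prp (Φ f) (Φ g))).card ≤ R) (hA' : ∀ b ∈ A', |b| ≤ H) :
    Fam (2 * (m : ℝ)) (R : ℝ) (H ^ ex m) A A' (fun z => (Φ z.1).eval z.2) (fun p f t => J ((Φ f).eval (t : ℤ)) p)
      (fun p b => (b % p).toNat) (fun _ _ => 1) ((A ×ˢ A).filter (fun z => Prp (Φ z.1) (Φ z.2)))
      (fun f g => rs (Φ f) * rs (Φ g) * mn (Φ f) (Φ g)) (fun b b' => b - b') := by
  obtain ⟨s1, s2, s3⟩ := size m H hm hH
  have hH0 : (0 : ℤ) ≤ H := by positivity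
  refine ⟨?_, ?_, ?_, ?_, ?_, ?_, ?_, ?_, ?_, ?_⟩
  · intro p hp b _
    have h1 : 0 ≤ b % (p : ℤ) := Int.emod_nonneg _ (by exact_mod_cast hp.ne_zero)
    have h2 : b % (p : ℤ) < p := Int.emod_lt_of_pos _ (by exact_mod_cast hp.pos)
    omega
  · intro p _ b _
    simp
  · intro p a t
    exact J_abs _ _
  · intro z _ p hp
    rw [one_mul]
    apply J_congr
    have h1 : 0 ≤ z.2 % (p : ℤ) := Int.emod_nonneg _ (by exact_mod_cast hp.ne_zero)
    have h2 : (((z.2 % (p : ℤ)).toNat : ℕ) : ℤ) = z.2 % p := Int.toNat_of_nonneg h1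
    rw [h2]
    have h3 : (z.2 % (p : ℤ)) ≡ z.2 [ZMOD p] := Int.mod_modEq _ _
    have h4 := sub_dvd_eval_sub (z.2 % (p : ℤ)) z.2 (Φ z.1)
    have h5 : (p : ℤ) ∣ (Φ z.1).eval (z.2 % (p : ℤ)) - (Φ z.1).eval z.2 := by
      refine dvd_trans ?_ h4
      exact (Int.modEq_iff_dvd.1 h3.symm)
    exact (Int.modEq_iff_dvd.2 h5)
  · intro f hf g hg hnb
    have hP : ¬ Prp (Φ f) (Φ g) := fun h => hnb (mem_filter.2 ⟨mem_product.2 ⟨hf, hg⟩, h⟩)
    obtain ⟨f1, f2, f3, f4⟩ := hA f hf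
    obtain ⟨g1, g2, g3, g4⟩ := hA g hg
    refine ⟨mul_ne_zero (mul_ne_zero (rs_ne_zero f3) (rs_ne_zero g3)) (mn_spec hP).1, ?_⟩
    rw [abs_mul, abs_mul]
    have a1 := rs_le m H hm (by omega) _ f2 f4
    have a2 := rs_le m H hm (by omega) _ g2 g4
    have a3 := mn_le H _ _ hP f4 g4
    have h1 : |rs (Φ f)| * |rs (Φ g)| * |mn (Φ f) (Φ g)| ≤ ((((2 * m)! * (m * H) ^ (2 * m)) ^ 2 * (2 * H ^ 2) : ℕ) : ℤ) := by
      rw [Nat.cast_mul, Nat.cast_pow, sq]
      exact mul_le_mul (mul_le_mul a1 a2 (abs_nonneg _) (by positivity)) a3 (abs_nonneg _) (by positivity)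
    refine h1.trans ?_
    exact_mod_cast s1
  · intro f hf g hg hnb p hp hp2 hnd
    have hP : ¬ Prp (Φ f) (Φ g) := fun h => hnb (mem_filter.2 ⟨mem_product.2 ⟨hf, hg⟩, h⟩)
    obtain ⟨f1, f2, f3, f4⟩ := hA f hf
    obtain ⟨g1, g2, g3, g4⟩ := hA g hg
    have : Fact p.Prime := ⟨hp⟩
    refine corr p hp2 m _ _ f1 g1 f2 g2 ?_ ?_ hP ?_
    · intro h
      exact hnd ((h.mul_right _).mul_right _)
    · intro h
      exact hnd ((h.mul_left _).mul_right _)
    · intro h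
      exact hnd (h.mul_left _)
  · have h1 : ((A ×ˢ A).filter (fun z => Prp (Φ z.1) (Φ z.2))).card = ∑ f ∈ A, (A.filter (fun g => Prp (Φ f) (Φ g))).card := by
      rw [card_filter, sum_product]
      exact sum_congr rfl fun f _ => (card_filter _ _).symm
    have h2 : ((A ×ˢ A).filter (fun z => Prp (Φ z.1) (Φ z.2))).card ≤ A.card * R := by
      rw [h1]
      refine (sum_le_sum hR).trans ?_
      rw [sum_const, smul_eq_mul]
    rw [mul_comm]
    exact_mod_cast h2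
  · intro b hb b' hb' hne
    refine ⟨sub_ne_zero.2 hne, ?_⟩
    have h1 := (abs_sub b b').trans (add_le_add (hA' b hb) (hA' b' hb'))
    refine h1.trans ?_
    have h2 : (H : ℤ) + H = ((2 * H : ℕ) : ℤ) := by push_cast; ring
    rw [h2]
    exact_mod_cast s3
  · intro b hb b' hb' p hp he
    have h1 : ∀ b : ℤ, (((b % (p : ℤ)).toNat : ℕ) : ℤ) = b % p := fun b =>
      Int.toNat_of_nonneg (Int.emod_nonneg _ (by exact_mod_cast hp.ne_zero))
    have h2 : b % (p : ℤ) = b' % p := by rw [← h1 b, ← h1 b']; exact_mod_cast he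
    exact Int.modEq_iff_dvd.1 (show b' ≡ b [ZMOD p] from h2.symm)
  · have h1 : A' ⊆ Icc (-(H : ℤ)) H := by
      intro b hb
      rw [mem_Icc]
      exact abs_le.1 (hA' b hb)
    have h2 := card_le_card h1
    rw [Int.card_Icc] at h2
    have h3 : A'.card ≤ 2 * H + 1 := by omega
    have h4 : A'.card ≤ 2 * H ^ ex m + 1 := by omega
    have h5 : (A'.card : ℝ) ≤ 2 * ((H ^ ex m : ℕ) : ℝ) + 1 := by exact_mod_cast h4
    have h6 : (0 : ℝ) ≤ ((H ^ ex m : ℕ) : ℝ) := Nat.cast_nonneg _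
    nlinarith

end Pool.Agent.V8H62.PF
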