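import Pool.Agent.V8H62.PF.B2

set_option autoImplicit false

/-! Sums of symbols and split primes for arbitrary families of polynomials at arbitrary sets of integers. -/

namespace Pool.Agent.V8H62.PF

open Polynomial Finset Pool.Agent.R345.SS
open scoped Nat.Prime

theorem few_div (z X : ℕ) (hz : 2 ≤ z) (P : Finset ℕ) (hP : ∀ p ∈ P, p.Prime ∧ z < p) (h : ℤ) (h0 : h ≠ 0)
    (hX : |h| ≤ X) : ((P.filter (fun p : ℕ => (p : ℤ) ∣ h)).card : ℝ) ≤ Real.log X / Real.log z := by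
  classical
  set Q := P.filter (fun p : ℕ => (p : ℤ) ∣ h) with hQ
  have h1 : (∏ p ∈ Q, p) ∣ h.natAbs := by
    apply Finset.prod_primes_dvd
    · intro p hp
      exact Nat.prime_iff.1 (hP p (mem_filter.1 hp).1).1
    · intro p hp
      exact Int.natCast_dvd.1 (mem_filter.1 hp).2
  have hn0 : 0 < h.natAbs := Int.natAbs_pos.2 h0
  have h2 : (∏ p ∈ Q, p) ≤ X := by
    refine (Nat.le_of_dvd hn0 h1).trans ?_
    have : ((h.natAbs : ℕ) : ℤ) ≤ X := by rw [Int.natCast_natAbs]; exact hX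
    exact_mod_cast this
  have h3 : z ^ Q.card ≤ ∏ p ∈ Q, p := by
    rw [← prod_const]
    exact prod_le_prod' fun p hp => (hP p (mem_filter.1 hp).1).2.le
  have hz' : (2 : ℝ) ≤ z := by exact_mod_cast hz
  have hlz : 0 < Real.log z := Real.log_pos (by linarith)
  rw [le_div_iff₀ hlz]
  have h4 : ((z : ℝ) ^ Q.card) ≤ X := by exact_mod_cast h3.trans h2
  have h5 := Real.log_le_log (by positivity) h4
  rwa [Real.log_pow] at h5

open Classical in
/-- sums over arbitrary sets of primes -/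
theorem sum_gen {α : Type} (k : ℕ) (hk : 1 ≤ k) (η : ℝ) (hη : 0 < η) (hη1 : η ≤ 1) (m R : ℕ) (hm : 1 ≤ m) :
    ∃ C : ℝ, 0 < C ∧
    ∀ (H z : ℕ) (y : ℝ) (P : Finset ℕ) (A : Finset α) (Φ : α → ℤ[X]) (A' : Finset ℤ), 2 ≤ z → z ≤ H →
      P.Nonempty → (∀ p ∈ P, p.Prime ∧ z < p ∧ (p : ℝ) ≤ y) →
      (∀ a ∈ A, Adm m H (Φ a)) → (∀ a ∈ A, (A.filter (fun a' => Prp (Φ a) (Φ a'))).card ≤ R) → (∀ b ∈ A', |b| ≤ H) →
      y ^ k ≤ A.card → (P.card : ℝ) ^ (2 * k) ≤ A'.card →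
      ∀ G : Finset (α × ℤ), (∀ x ∈ G, x ∈ A ×ˢ A' ∧ η * P.card ≤ |∑ p ∈ P, (jacobiSym ((Φ x.1).eval x.2) p : ℝ)|) →
      (G.card : ℝ) ≤ C * (Real.sqrt y * Real.log H / (P.card * Real.log z)) ^ k * (A.card * A'.card) := by
  obtain ⟨C, hC, h⟩ := excep (α := α) (β := ℤ) k hk η (2 * m) R hη hη1
    (by have : (1 : ℝ) ≤ m := by exact_mod_cast hm
        linarith) (Nat.cast_nonneg R)
  have hex : 1 ≤ ex m := by unfold ex; omega
  have hexr : (1 : ℝ) ≤ ex m := by exact_mod_cast hex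
  refine ⟨C * (ex m : ℝ) ^ k, by positivity, ?_⟩
  intro H z y P A Φ A' hz hzH hne hP hA hR hA' hcA hcA' G hG
  have hH : 2 ≤ H := hz.trans hzH
  have hF := the_fam m H R hm hH A Φ A' hA hR hA'
  have hzr : (2 : ℝ) ≤ z := by exact_mod_cast hz
  have hlz : 0 < Real.log z := Real.log_pos (by linarith)
  have hlH : Real.log z ≤ Real.log H := Real.log_le_log (by linarith) (by exact_mod_cast hzH)
  set W : ℝ := ex m * Real.log H / Real.log z with hW
  have hW1 : 1 ≤ W := by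
    rw [hW, one_le_div hlz]
    nlinarith
  have hX : Real.log ((H ^ ex m : ℕ) : ℝ) = ex m * Real.log H := by
    push_cast
    rw [Real.log_pow]
  have hP' : ∀ p ∈ P, p.Prime ∧ z < p := fun p hp => ⟨(hP p hp).1, (hP p hp).2.1⟩
  have h1 := h P y W A A' (fun p f t => J ((Φ f).eval (t : ℤ)) p) (fun p b => (b % p).toNat) (fun _ _ => 1)
    ((A ×ˢ A).filter (fun z => Prp (Φ z.1) (Φ z.2))) (fun x p => jacobiSym ((Φ x.1).eval x.2) p) hne
    (fun p hp => ⟨(hP p hp).1, by have := (hP p hp).2.1; omega, (hP p hp).2.2⟩) hW1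
    (fun p hp => hF.hκ p (hP p hp).1) (fun p hp => hF.hw p (hP p hp).1) hF.hK ?_ hF.hbad ?_ hcA hcA' ?_ G hG
  · refine h1.trans (le_of_eq ?_)
    have e : Real.sqrt y * W / P.card = ex m * (Real.sqrt y * Real.log H / (P.card * Real.log z)) := by
      rw [hW]
      have : (P.card : ℝ) ≠ 0 := by exact_mod_cast hne.card_pos.ne'
      field_simp
    rw [e, mul_pow]
    ring
  · intro a ha a' ha' hnb
    refine le_trans ?_ (le_trans (few_div z (H ^ ex m) hz P hP' _ (hF.hu a ha a' ha' hnb).1 (hF.hu a ha a' ha' hnb).2)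
      (le_of_eq (by rw [hX])))
    refine Nat.cast_le.2 (card_le_card fun p hp => ?_)
    rw [mem_filter] at hp ⊢
    refine ⟨hp.1, ?_⟩
    by_contra hnd
    exact hp.2 (hF.hcor a ha a' ha' hnb p (hP p hp.1).1 (by have := (hP p hp.1).2.1; omega) hnd)
  · intro b hb b' hb' hne'
    refine le_trans ?_ (le_trans (few_div z (H ^ ex m) hz P hP' _ (hF.hv b hb b' hb' hne').1 (hF.hv b hb b' hb' hne').2)
      (le_of_eq (by rw [hX])))
    refine Nat.cast_le.2 (card_le_card fun p hp => ?_)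
    rw [mem_filter] at hp ⊢
    exact ⟨hp.1, hF.hvκ b hb b' hb' p (hP p hp.1).1 hp.2⟩
  · intro x hx p hp
    refine ⟨?_, hF.hn x hx p (hP p hp).1⟩
    rcases jacobiSym.trichotomy ((Φ x.1).eval x.2) p with h | h | h <;> rw [h] <;> simp

open Classical in
/-- half of the primes -/
theorem half_gen {α : Type} (k : ℕ) (hk : 1 ≤ k) (η : ℝ) (hη : 0 < η) (hη1 : η ≤ 1) (m R : ℕ) (hm : 1 ≤ m) :
    ∃ C : ℝ, 0 < C ∧
    ∀ (H : ℕ) (A : Finset α) (Φ : α → ℤ[X]) (A' : Finset ℤ) (L : ℝ), 2 ≤ H →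
      (∀ a ∈ A, Adm m H (Φ a)) → (∀ a ∈ A, (A.filter (fun a' => Prp (Φ a) (Φ a'))).card ≤ R) → (∀ b ∈ A', |b| ≤ H) →
      0 < L →
      ∀ G : Finset (α × ℤ), (∀ x ∈ G, x ∈ A ×ˢ A' ∧ (Φ x.1).eval x.2 ≠ 0 ∧ ∃ d : ℤ, Fund d ∧ IsSquare ((Φ x.1).eval x.2 * d) ∧
        ∃ y : ℕ, L ≤ y ∧ (y : ℝ) ^ (2 * k) ≤ A.card ∧ (y : ℝ) ^ (2 * k) ≤ A'.card ∧
          ¬ |((Spl d y).card : ℝ) - (π y : ℝ) / 2| ≤ η * (π y : ℝ)) →
      (G.card : ℝ) ≤ C * (Real.log H / Real.sqrt L) ^ k * (A.card * A'.card) := by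
  obtain ⟨C, hC, h⟩ := split_pairs (α := α) (β := ℤ) k hk η (1 / 2) (2 * m) R hη hη1 (by norm_num)
    (by have : (1 : ℝ) ≤ m := by exact_mod_cast hm
        linarith) (Nat.cast_nonneg R)
  have hex : 1 ≤ ex m := by unfold ex; omega
  have hexr : (1 : ℝ) ≤ ex m := by exact_mod_cast hex
  refine ⟨C * (ex m : ℝ) ^ k + (2 * ex m) ^ k, by positivity, ?_⟩
  intro H A Φ A' L hH hA hR hA' hL G hG
  have hF := the_fam m H R hm hH A Φ A' hA hR hA'
  have hHr : (2 : ℝ) ≤ H := by exact_mod_cast hH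
  have hlH : 0.69 ≤ Real.log H := by
    have h1 := Real.log_le_log (by norm_num) hHr
    have h2 := Real.log_two_gt_d9
    linarith
  have hsL : 0 < Real.sqrt L := Real.sqrt_pos.2 hL
  have hX : Real.log ((H ^ ex m : ℕ) : ℝ) = ex m * Real.log H := by
    push_cast
    rw [Real.log_pow]
  have hAA : (0 : ℝ) ≤ A.card * A'.card := by positivity
  have hQ0 : 0 ≤ (Real.log H / Real.sqrt L) ^ k := by positivity
  have hHex : H ≤ H ^ ex m := Nat.le_self_pow (by omega) H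
  rcases lt_or_ge L (Real.log ((H ^ ex m : ℕ) : ℝ) ^ (1 + 1 / 2 : ℝ)) with hlt | hge
  · have h1 : (G.card : ℝ) ≤ A.card * A'.card := by
      have h2 : G ⊆ A ×ˢ A' := fun z hz => (hG z hz).1
      have h3 := card_le_card h2
      rw [card_product] at h3
      exact_mod_cast h3
    refine h1.trans ?_
    have h2 : 1 ≤ (2 * (ex m : ℝ)) ^ k * (Real.log H / Real.sqrt L) ^ k := by
      rw [← mul_pow]
      apply one_le_pow₀
      rw [mul_div_assoc', le_div_iff₀ hsL, one_mul]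
      rw [Real.sqrt_le_left (by positivity)]
      refine hlt.le.trans ?_
      rw [hX]
      have h4 : (1 : ℝ) ≤ 2 * ex m * Real.log H := by nlinarith
      have h3 : (ex m * Real.log H) ^ (1 + 1 / 2 : ℝ) ≤ (2 * ex m * Real.log H) ^ (1 + 1 / 2 : ℝ) :=
        Real.rpow_le_rpow (by positivity) (by nlinarith) (by norm_num)
      refine h3.trans ?_
      have h5 : (2 * ex m * Real.log H) ^ (1 + 1 / 2 : ℝ) ≤ (2 * ex m * Real.log H) ^ (2 : ℝ) :=
        Real.rpow_le_rpow_of_exponent_le h4 (by norm_num)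
      rwa [Real.rpow_two] at h5
    have h3 : 1 ≤ (C * (ex m : ℝ) ^ k + (2 * ex m) ^ k) * (Real.log H / Real.sqrt L) ^ k := by
      rw [add_mul]
      have : 0 ≤ C * (ex m : ℝ) ^ k * (Real.log H / Real.sqrt L) ^ k := by positivity
      linarith
    calc (A.card * A'.card : ℝ) = 1 * (A.card * A'.card) := (one_mul _).symm
      _ ≤ _ := mul_le_mul_of_nonneg_right h3 hAA
  · have h1 := h (H ^ ex m) (H ^ ex m) A A' _ _ _ _ _ _ _ L (hH.trans hHex) (hH.trans hHex) hF ?_ hge G hG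
    · refine h1.trans ?_
      refine mul_le_mul_of_nonneg_right ?_ hAA
      rw [hX, show (ex m * Real.log H) / Real.sqrt L = ex m * (Real.log H / Real.sqrt L) by rw [mul_div_assoc], mul_pow,
        ← mul_assoc, add_mul]
      have : 0 ≤ (2 * (ex m : ℝ)) ^ k * (Real.log H / Real.sqrt L) ^ k := by positivity
      linarith
    · intro x hx
      rw [mem_product] at hx
      obtain ⟨-, f2, -, f4⟩ := hA x.1 hx.1
      refine (eval_le m H (by omega) _ f2 f4 x.2 (hA' x.2 hx.2)).trans ?_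
      exact_mod_cast (size m H hm hH).2.1

open Classical in
/-- the threshold -/
theorem thr_gen {α : Type} (k : ℕ) (hk : 1 ≤ k) (η c : ℝ) (hη : 0 < η) (hη1 : η ≤ 1) (hc : 0 < c) (m R : ℕ) (hm : 1 ≤ m) :
    ∃ C : ℝ, 0 < C ∧ ∃ H0 : ℕ, 3 ≤ H0 ∧
    ∀ (H : ℕ) (A : Finset α) (Φ : α → ℤ[X]) (A' : Finset ℤ), H0 ≤ H →
      (∀ a ∈ A, Adm m H (Φ a)) → (∀ a ∈ A, (A.filter (fun a' => Prp (Φ a) (Φ a'))).card ≤ R) → (∀ b ∈ A', |b| ≤ H) →
      Real.log H ^ (7 * k) ≤ A.card → Real.log H ^ (7 * k) ≤ A'.card →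
      ∀ G : Finset (α × ℤ), (∀ x ∈ G, x ∈ A ×ˢ A' ∧ (Φ x.1).eval x.2 ≠ 0 ∧ ∃ d : ℤ, Fund d ∧ IsSquare ((Φ x.1).eval x.2 * d) ∧
        (H : ℝ) ^ c ≤ |(d : ℝ)| ∧
          ¬ |2 * ((Spl d (⌈thr d⌉₊ - 1)).card : ℝ) - (π (⌈thr d⌉₊ - 1) : ℝ)| ≤ η * (π (⌈thr d⌉₊ - 1) : ℝ)) →
      (G.card : ℝ) ≤ C * (1 / Real.log (Real.log H)) ^ k * (A.card * A'.card) := by
  have hex : 1 ≤ ex m := by unfold ex; omega
  have hexr : (1 : ℝ) ≤ ex m := by exact_mod_cast hex
  set c' : ℝ := min (c / ex m) 1 with hc'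
  have hc'0 : 0 < c' := lt_min (by positivity) one_pos
  obtain ⟨C, hC, H0, hH03, h⟩ := threshold_pairs (α := α) (β := ℤ) k hk η c' (2 * m) R hη hη1 hc'0 (min_le_right _ _)
    (by have : (1 : ℝ) ≤ m := by exact_mod_cast hm
        linarith) (Nat.cast_nonneg R)
  refine ⟨C, hC, max H0 ⌈Real.exp ((ex m : ℝ) ^ 6)⌉₊, hH03.trans (le_max_left _ _), ?_⟩
  intro H A Φ A' hH0 hA hR hA' hcA hcA' G hG
  have hH3 : 3 ≤ H := (hH03.trans (le_max_left _ _)).trans hH0
  have hH : 2 ≤ H := by omega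
  have hHe : Real.exp ((ex m : ℝ) ^ 6) ≤ H := by
    refine (Nat.le_ceil _).trans ?_
    exact_mod_cast (le_max_right _ _).trans hH0
  have hHr : (3 : ℝ) ≤ H := by exact_mod_cast hH3
  have hlex : (ex m : ℝ) ^ 6 ≤ Real.log H := by
    rw [Real.le_log_iff_exp_le (by linarith)]; exact hHe
  have hl1 : 1 < Real.log H := by
    rw [Real.lt_log_iff_exp_lt (by linarith)]
    have := Real.exp_one_lt_d9
    linarith
  have hF := the_fam m H R hm hH A Φ A' hA hR hA'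
  have hX : Real.log ((H ^ ex m : ℕ) : ℝ) = ex m * Real.log H := by
    push_cast
    rw [Real.log_pow]
  have hHex : H ≤ H ^ ex m := Nat.le_self_pow (by omega) H
  have hpow : (ex m * Real.log H) ^ (6 * k) ≤ Real.log H ^ (7 * k) := by
    rw [mul_pow, show 7 * k = k + 6 * k by ring, pow_add, pow_mul]
    exact mul_le_mul_of_nonneg_right (pow_le_pow_left₀ (by positivity) hlex k) (by positivity)
  have h1 := h (H ^ ex m) (H ^ ex m) A A' _ _ _ _ _ _ _ (hH.trans hHex) (((le_max_left _ _).trans hH0).trans hHex) hF ?_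
    (by rw [hX]; exact hpow.trans hcA) (by rw [hX]; exact hpow.trans hcA') G ?_
  · refine h1.trans ?_
    refine mul_le_mul_of_nonneg_right (mul_le_mul_of_nonneg_left ?_ hC.le) (by positivity)
    have hll : 0 < Real.log (Real.log H) := Real.log_pos hl1
    have hle : Real.log (Real.log H) ≤ Real.log (Real.log ((H ^ ex m : ℕ) : ℝ)) := by
      refine Real.log_le_log (by linarith) ?_
      rw [hX]
      nlinarith
    have hXp : 0 < Real.log ((H ^ ex m : ℕ) : ℝ) := by rw [hX]; positivity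
    have e : Real.log ((H ^ ex m : ℕ) : ℝ) / (Real.log ((H ^ ex m : ℕ) : ℝ) * Real.log (Real.log ((H ^ ex m : ℕ) : ℝ))) =
        1 / Real.log (Real.log ((H ^ ex m : ℕ) : ℝ)) := by
      have : Real.log (Real.log ((H ^ ex m : ℕ) : ℝ)) ≠ 0 := by linarith
      field_simp
    rw [e]
    refine pow_le_pow_left₀ (one_div_nonneg.2 (hll.le.trans hle)) ?_ k
    exact one_div_le_one_div_of_le hll hle
  · intro x hx
    rw [mem_product] at hx
    obtain ⟨-, f2, -, f4⟩ := hA x.1 hx.1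
    refine (eval_le m H (by omega) _ f2 f4 x.2 (hA' x.2 hx.2)).trans ?_
    exact_mod_cast (size m H hm hH).2.1
  · intro x hx
    obtain ⟨g1, g2, d, g3, g4, g5, g6⟩ := hG x hx
    refine ⟨g1, g2, d, g3, g4, ?_, g6⟩
    refine le_trans ?_ g5
    push_cast
    rw [← Real.rpow_natCast, ← Real.rpow_mul (by linarith)]
    refine Real.rpow_le_rpow_of_exponent_le (by linarith) ?_
    have h2 : c' ≤ c / ex m := min_le_left _ _
    calc (ex m : ℝ) * c' ≤ ex m * (c / ex m) := mul_le_mul_of_nonneg_left h2 (by linarith)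
      _ = c := by field_simp

end Pool.Agent.V8H62.PF
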