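import Pool.Agent.V8H62.PF.B3

set_option autoImplicit false

/-! Polynomials in two variables at the pairs of two arbitrary sets of integers. -/

namespace Pool.Agent.V8H62.PF

open Polynomial Finset Pool.Agent.R345.SS
open scoped Nat.Prime

/-- `F(a, y)` -/
noncomputable def sp (F : ℤ[X][X]) (a : ℤ) : ℤ[X] := F.map (evalRingHom a)

theorem sp_eval (F : ℤ[X][X]) (a b : ℤ) : (sp F a).eval b = F.evalEval a b := map_evalRingHom_eval a b F

theorem sp_coeff (F : ℤ[X][X]) (a : ℤ) (j : ℕ) : (sp F a).coeff j = (F.coeff j).eval a := by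
  unfold sp
  rw [coeff_map]
  rfl

theorem res_ne_zero {F : ℤ[X][X]} (hs : Squarefree (F.map (algebraMap ℤ[X] (FractionRing ℤ[X])))) :
    resultant F (derivative F) ≠ 0 := by
  have : CharZero (FractionRing ℤ[X]) := inferInstance
  have hsep : IsCoprime (F.map (algebraMap ℤ[X] (FractionRing ℤ[X]))) (derivative (F.map (algebraMap ℤ[X] (FractionRing ℤ[X])))) :=
    PerfectField.separable_iff_squarefree.2 hs
  have h1 := resultant_ne_zero _ _ hsep
  intro h0
  apply h1
  have hinj : Function.Injective (algebraMap ℤ[X] (FractionRing ℤ[X])) := IsFractionRing.injective _ _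
  have e : resultant (F.map (algebraMap ℤ[X] (FractionRing ℤ[X]))) (derivative (F.map (algebraMap ℤ[X] (FractionRing ℤ[X])))) =
      (algebraMap ℤ[X] (FractionRing ℤ[X])) (resultant F (derivative F)) := by
    rw [derivative_map, ← resultant_map_map, natDegree_map_eq_of_injective hinj, natDegree_map_eq_of_injective hinj]
  rw [e, h0, map_zero]

theorem sp_squarefree (F : ℤ[X][X]) (hn : 0 < F.natDegree) (a : ℤ) (ha : (resultant F (derivative F)).eval a ≠ 0) :
    Squarefree ((sp F a).map (Int.castRingHom ℚ)) := by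
  obtain ⟨A, B, -, -, hab⟩ := exists_mul_add_mul_eq_C_resultant F (derivative F) le_rfl le_rfl (Or.inl hn.ne')
  have h1 := congrArg (Polynomial.map ((Int.castRingHom ℚ).comp (evalRingHom a))) hab
  rw [Polynomial.map_add, Polynomial.map_mul, Polynomial.map_mul, ← derivative_map, Polynomial.map_C] at h1
  set r : ℚ := ((Int.castRingHom ℚ).comp (evalRingHom a)) (F.resultant (derivative F)) with hr
  have h2 : r ≠ 0 := by
    rw [hr]
    show ((Int.castRingHom ℚ) ((evalRingHom a) (F.resultant (derivative F)))) ≠ 0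
    simp only [coe_evalRingHom, eq_intCast, ne_eq, Int.cast_eq_zero]
    exact ha
  have h3 : (sp F a).map (Int.castRingHom ℚ) = F.map ((Int.castRingHom ℚ).comp (evalRingHom a)) := by
    unfold sp
    rw [Polynomial.map_map]
  rw [h3]
  have h4 : IsCoprime (F.map ((Int.castRingHom ℚ).comp (evalRingHom a)))
      (derivative (F.map ((Int.castRingHom ℚ).comp (evalRingHom a)))) := by
    refine ⟨C r⁻¹ * A.map ((Int.castRingHom ℚ).comp (evalRingHom a)), C r⁻¹ * B.map ((Int.castRingHom ℚ).comp (evalRingHom a)), ?_⟩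
    have e : C r⁻¹ * C r = 1 := by
      rw [← C_mul, inv_mul_cancel₀ h2, C_1]
    rw [← e, ← h1]
    ring
  exact Separable.squarefree h4

theorem bounds (F : ℤ[X][X]) : ∃ N : ℕ, 1 ≤ N ∧ F.natDegree ≤ N ∧ ∀ j, (F.coeff j).natDegree ≤ N ∧ ∀ i, |(F.coeff j).coeff i| ≤ N := by
  obtain ⟨N1, hN1⟩ : ∃ N1, N1 = (range (F.natDegree + 1)).sup (fun j => (F.coeff j).natDegree) := ⟨_, rfl⟩
  obtain ⟨N2, hN2⟩ : ∃ N2, N2 = (range (F.natDegree + 1)).sup
    (fun j => (range (N1 + 1)).sup (fun i => ((F.coeff j).coeff i).natAbs)) := ⟨_, rfl⟩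
  have h1 : ∀ j, (F.coeff j).natDegree ≤ N1 := by
    intro j
    by_cases hj : j ∈ range (F.natDegree + 1)
    · rw [hN1]
      exact le_sup (f := fun j => (F.coeff j).natDegree) hj
    · rw [mem_range] at hj
      rw [coeff_eq_zero_of_natDegree_lt (by omega), natDegree_zero]
      exact Nat.zero_le _
  have h2 : ∀ j i, ((F.coeff j).coeff i).natAbs ≤ N2 := by
    intro j i
    by_cases hj : j ∈ range (F.natDegree + 1)
    · by_cases hi : i ∈ range (N1 + 1)
      · rw [hN2]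
        refine le_trans (le_sup (f := fun i => ((F.coeff j).coeff i).natAbs) hi) ?_
        exact le_sup (f := fun j => (range (N1 + 1)).sup (fun i => ((F.coeff j).coeff i).natAbs)) hj
      · rw [mem_range] at hi
        rw [coeff_eq_zero_of_natDegree_lt (p := F.coeff j) (by have := h1 j; omega)]
        simp
    · rw [mem_range] at hj
      rw [coeff_eq_zero_of_natDegree_lt (p := F) (by omega), coeff_zero]
      simp
  refine ⟨F.natDegree + N1 + N2 + 1, by omega, by omega, fun j => ⟨(h1 j).trans (by omega), fun i => ?_⟩⟩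
  have h3 := h2 j i
  have h4 : |(F.coeff j).coeff i| = (((F.coeff j).coeff i).natAbs : ℤ) := (Int.natCast_natAbs _).symm
  rw [h4]
  exact_mod_cast h3.trans (by omega)

theorem coeff_bound (F : ℤ[X][X]) (N : ℕ) (hN : 1 ≤ N) (hb : ∀ j, (F.coeff j).natDegree ≤ N ∧ ∀ i, |(F.coeff j).coeff i| ≤ N)
    (H : ℕ) (hH : 2 ≤ H) (a : ℤ) (ha : |a| ≤ H) (j : ℕ) : |(sp F a).coeff j| ≤ ((H ^ ((N + 1) * (N + 2)) : ℕ) : ℤ) := by
  rw [sp_coeff]
  have hpow : ∀ b : ℕ, b ≤ H ^ b := fun b => (Nat.lt_two_pow_self.le).trans (Nat.pow_le_pow_left hH b)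
  have h1 : N ≤ H ^ (N + 1) := (Nat.le_succ N).trans (hpow (N + 1))
  have h2 : H ≤ H ^ (N + 1) := Nat.le_self_pow (by omega) H
  have h3 := eval_le N (H ^ (N + 1)) (by omega) (F.coeff j) (hb j).1
    (fun i => ((hb j).2 i).trans (by exact_mod_cast h1)) a (ha.trans (by exact_mod_cast h2))
  refine h3.trans ?_
  have h4 : (N + 1) * (H ^ (N + 1)) ^ (N + 1) ≤ H ^ ((N + 1) * (N + 2)) := by
    calc (N + 1) * (H ^ (N + 1)) ^ (N + 1) ≤ H ^ (N + 1) * (H ^ (N + 1)) ^ (N + 1) := Nat.mul_le_mul_right _ (hpow (N + 1))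
      _ = H ^ ((N + 1) * (N + 2)) := by rw [← pow_mul, ← pow_add]; congr 1; ring
  exact_mod_cast h4

open Classical in
theorem prp_few (F : ℤ[X][X]) (N : ℕ) (hb : ∀ j, (F.coeff j).natDegree ≤ N) (j : ℕ) (hj : ¬ Prp F.leadingCoeff (F.coeff j))
    (A : Finset ℤ) (a : ℤ) (ha : F.leadingCoeff.eval a ≠ 0) :
    (A.filter (fun a' => Prp (sp F a) (sp F a'))).card ≤ N := by
  set q : ℤ[X] := C (F.leadingCoeff.eval a) * F.coeff j - C ((F.coeff j).eval a) * F.leadingCoeff with hq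
  have hq0 : q ≠ 0 := by
    intro h0
    apply hj
    intro s t
    have h1 : ∀ s, F.leadingCoeff.eval a * (F.coeff j).coeff s = (F.coeff j).eval a * F.leadingCoeff.coeff s := by
      intro s
      have h2 := congrArg (fun g : ℤ[X] => g.coeff s) h0
      simp only [hq, coeff_sub, coeff_C_mul, coeff_zero] at h2
      linarith
    apply mul_left_cancel₀ ha
    linear_combination F.leadingCoeff.coeff s * h1 t - F.leadingCoeff.coeff t * h1 s
  have hdeg : q.natDegree ≤ N := by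
    refine (natDegree_sub_le _ _).trans (max_le ?_ ?_)
    · exact (natDegree_C_mul_le _ _).trans (hb j)
    · exact (natDegree_C_mul_le _ _).trans (hb F.natDegree)
  have hsub : A.filter (fun a' => Prp (sp F a) (sp F a')) ⊆ q.roots.toFinset := by
    intro a' ha'
    rw [mem_filter] at ha'
    rw [Multiset.mem_toFinset, mem_roots hq0, IsRoot.def, hq, eval_sub, eval_mul, eval_mul, eval_C, eval_C]
    have h1 := ha'.2 F.natDegree j
    rw [sp_coeff, sp_coeff, sp_coeff, sp_coeff] at h1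
    unfold leadingCoeff
    rw [h1]
    ring
  exact (card_le_card hsub).trans ((Multiset.toFinset_card_le _).trans ((card_roots' q).trans hdeg))

theorem pow_add_le (k : ℕ) (hk : 1 ≤ k) (u v : ℝ) (hu : 1 ≤ u) (hv : 0 ≤ v) : u ^ k + v ≤ (u + v) ^ k := by
  obtain ⟨n, rfl⟩ : ∃ n, k = n + 1 := ⟨k - 1, by omega⟩
  rw [pow_succ, pow_succ, mul_add]
  have h3 : u ^ n ≤ (u + v) ^ n := pow_le_pow_left₀ (by linarith) (by linarith) n
  have h4 : (1 : ℝ) ≤ (u + v) ^ n := one_le_pow₀ (by linarith)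
  have h5 := mul_le_mul_of_nonneg_right h3 (show 0 ≤ u by linarith)
  have h6 := mul_le_mul_of_nonneg_right h4 hv
  linarith

open Classical in
theorem biv (k : ℕ) (hk : 1 ≤ k) (η c : ℝ) (hη : 0 < η) (hη1 : η ≤ 1) (hc : 0 < c) (F : ℤ[X][X])
    (hsq : Squarefree (F.map (algebraMap ℤ[X] (FractionRing ℤ[X])))) (hn : 0 < F.natDegree)
    (hnd : ∃ j, ¬ Prp F.leadingCoeff (F.coeff j)) :
    ∃ C : ℝ, 0 < C ∧ ∃ H0 : ℕ, ∀ (H : ℕ) (A B : Finset ℤ), H0 ≤ H → (∀ a ∈ A, |a| ≤ H) → (∀ b ∈ B, |b| ≤ H) →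
      Real.log H ^ (8 * k) ≤ A.card → Real.log H ^ (8 * k) ≤ B.card →
      ∀ G : Finset (ℤ × ℤ), (∀ x ∈ G, x ∈ A ×ˢ B ∧ F.evalEval x.1 x.2 ≠ 0 ∧ ∃ d : ℤ, Fund d ∧ IsSquare (F.evalEval x.1 x.2 * d) ∧
        (H : ℝ) ^ c ≤ |(d : ℝ)| ∧
          ¬ |2 * ((Spl d (⌈thr d⌉₊ - 1)).card : ℝ) - (π (⌈thr d⌉₊ - 1) : ℝ)| ≤ η * (π (⌈thr d⌉₊ - 1) : ℝ)) →
      (G.card : ℝ) ≤ C * (1 / Real.log (Real.log H)) ^ k * (A.card * B.card) := by
  obtain ⟨j, hj⟩ := hnd
  obtain ⟨N, hN1, hNF, hNb⟩ := bounds F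
  obtain ⟨E, hE⟩ : ∃ E, E = (N + 1) * (N + 2) := ⟨_, rfl⟩
  have hE1 : 1 ≤ E := by rw [hE]; nlinarith
  have hE1r : (1 : ℝ) ≤ E := by exact_mod_cast hE1
  obtain ⟨r0, hr0⟩ : ∃ r0, r0 = resultant F (derivative F) := ⟨_, rfl⟩
  have hr00 : r0 ≠ 0 := by rw [hr0]; exact res_ne_zero hsq
  have hF0 : F ≠ 0 := by
    rintro rfl
    simp at hn
  have hlc0 : F.leadingCoeff ≠ 0 := leadingCoeff_ne_zero.2 hF0
  obtain ⟨e0, he0⟩ : ∃ e0, e0 = (r0 * F.leadingCoeff).natDegree := ⟨_, rfl⟩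
  obtain ⟨C, hC, H1, hH13, h⟩ := thr_gen (α := ℤ) k hk η (c / E) hη hη1 (by positivity) F.natDegree N hn
  refine ⟨C + 1, by positivity, max H1 ⌈Real.exp ((E : ℝ) ^ 7 + e0)⌉₊, ?_⟩
  intro H A B hH0 hA hB hcA hcB G hG
  have hH3 : 3 ≤ H := (hH13.trans (le_max_left _ _)).trans hH0
  have hH2 : 2 ≤ H := by omega
  have hHr : (3 : ℝ) ≤ H := by exact_mod_cast hH3
  have hl : (E : ℝ) ^ 7 + e0 ≤ Real.log H := by
    rw [Real.le_log_iff_exp_le (by linarith)]
    refine (Nat.le_ceil _).trans ?_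
    exact_mod_cast (le_max_right _ _).trans hH0
  have hl1 : 1 < Real.log H := by
    rw [Real.lt_log_iff_exp_lt (by linarith)]
    have := Real.exp_one_lt_d9
    linarith
  have hll : 0 < Real.log (Real.log H) := Real.log_pos hl1
  have he0r : (0 : ℝ) ≤ e0 := Nat.cast_nonneg _
  have hE7 : (1 : ℝ) ≤ (E : ℝ) ^ 7 := one_le_pow₀ hE1r
  -- the good elements of `A`
  set A1 : Finset ℤ := A.filter (fun a => (r0 * F.leadingCoeff).eval a ≠ 0) with hA1
  set A2 : Finset ℤ := A.filter (fun a => ¬ (r0 * F.leadingCoeff).eval a ≠ 0) with hA2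
  have hA12 : A1.card + A2.card = A.card := card_filter_add_card_filter_not _
  have hA2c : A2.card ≤ e0 := by
    have hsub : A2 ⊆ (r0 * F.leadingCoeff).roots.toFinset := by
      intro a ha
      rw [hA2, mem_filter, not_not] at ha
      rw [Multiset.mem_toFinset, mem_roots (mul_ne_zero hr00 hlc0)]
      exact ha.2
    rw [he0]
    exact (card_le_card hsub).trans ((Multiset.toFinset_card_le _).trans (card_roots' _))
  have hgood : ∀ a ∈ A1, r0.eval a ≠ 0 ∧ F.leadingCoeff.eval a ≠ 0 := by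
    intro a ha
    rw [hA1, mem_filter, eval_mul] at ha
    exact ⟨left_ne_zero_of_mul ha.2, right_ne_zero_of_mul ha.2⟩
  have hlogE : Real.log ((H ^ E : ℕ) : ℝ) = E * Real.log H := by
    push_cast
    rw [Real.log_pow]
  have hHE : H ≤ H ^ E := Nat.le_self_pow (by omega) H
  -- sizes
  have hnum : (E * Real.log H) ^ (7 * k) + e0 ≤ Real.log H ^ (8 * k) := by
    have h1 : ((E : ℝ) ^ 7) ^ k + e0 ≤ Real.log H ^ k := by
      have h2 : ((E : ℝ) ^ 7) ^ k + e0 ≤ ((E : ℝ) ^ 7 + e0) ^ k := pow_add_le k hk _ _ hE7 he0r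
      exact h2.trans (pow_le_pow_left₀ (by positivity) hl k)
    have h2 : (1 : ℝ) ≤ Real.log H ^ (7 * k) := one_le_pow₀ hl1.le
    calc (E * Real.log H) ^ (7 * k) + e0 = ((E : ℝ) ^ 7) ^ k * Real.log H ^ (7 * k) + e0 := by rw [mul_pow, ← pow_mul]
      _ ≤ ((E : ℝ) ^ 7) ^ k * Real.log H ^ (7 * k) + e0 * Real.log H ^ (7 * k) := by
          have := mul_le_mul_of_nonneg_left h2 he0r
          linarith
      _ = (((E : ℝ) ^ 7) ^ k + e0) * Real.log H ^ (7 * k) := by ring
      _ ≤ Real.log H ^ k * Real.log H ^ (7 * k) := mul_le_mul_of_nonneg_right h1 (by positivity)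
      _ = Real.log H ^ (8 * k) := by rw [← pow_add]; congr 1; ring
  have hcA1 : Real.log ((H ^ E : ℕ) : ℝ) ^ (7 * k) ≤ A1.card := by
    rw [hlogE]
    have h1 : (A.card : ℝ) ≤ A1.card + e0 := by
      have : A.card ≤ A1.card + e0 := by omega
      exact_mod_cast this
    linarith
  have hcB1 : Real.log ((H ^ E : ℕ) : ℝ) ^ (7 * k) ≤ B.card := by
    rw [hlogE]
    linarith
  have hAdm : ∀ a ∈ A1, Adm F.natDegree (H ^ E) (sp F a) := by
    intro a ha
    have hg := hgood a ha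
    have hdeg : (sp F a).natDegree = F.natDegree := natDegree_map_of_leadingCoeff_ne_zero _ hg.2
    refine ⟨by rw [hdeg]; exact hn, by rw [hdeg], sp_squarefree F hn a (by rw [← hr0]; exact hg.1), fun i => ?_⟩
    rw [hE]
    exact coeff_bound F N hN1 hNb H hH2 a (hA a (mem_filter.1 ha).1) i
  have h1 := h (H ^ E) A1 (sp F) B (((le_max_left _ _).trans hH0).trans hHE) hAdm
    (fun a ha => prp_few F N (fun i => (hNb i).1) j hj A1 a (hgood a ha).2)
    (fun b hb => (hB b hb).trans (by exact_mod_cast hHE)) hcA1 hcB1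
    (G.filter (fun x => x.1 ∈ A1)) (by
      intro x hx
      rw [mem_filter] at hx
      obtain ⟨g1, g2, d, g3, g4, g5, g6⟩ := hG x hx.1
      rw [mem_product] at g1
      refine ⟨mem_product.2 ⟨hx.2, g1.2⟩, by rw [sp_eval]; exact g2, d, g3, by rw [sp_eval]; exact g4, ?_, g6⟩
      refine le_trans (le_of_eq ?_) g5
      push_cast
      rw [← Real.rpow_natCast, ← Real.rpow_mul (by linarith)]
      congr 1
      field_simp)
  have h2 : ((G.filter (fun x => ¬ x.1 ∈ A1)).card : ℝ) ≤ e0 * B.card := by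
    have hsub : G.filter (fun x => ¬ x.1 ∈ A1) ⊆ A2 ×ˢ B := by
      intro x hx
      rw [mem_filter] at hx
      have g1 := mem_product.1 (hG x hx.1).1
      rw [mem_product]
      refine ⟨?_, g1.2⟩
      rw [hA2, mem_filter]
      refine ⟨g1.1, fun h' => hx.2 ?_⟩
      rw [hA1, mem_filter]
      exact ⟨g1.1, h'⟩
    have h3 := card_le_card hsub
    rw [card_product] at h3
    have h4 : (G.filter (fun x => ¬ x.1 ∈ A1)).card ≤ e0 * B.card := h3.trans (Nat.mul_le_mul_right _ hA2c)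
    exact_mod_cast h4
  have h3 : (G.card : ℝ) = (G.filter (fun x => x.1 ∈ A1)).card + (G.filter (fun x => ¬ x.1 ∈ A1)).card := by
    rw [← card_filter_add_card_filter_not (s := G) (fun x => x.1 ∈ A1)]
    push_cast
    rfl
  have hB0 : (0 : ℝ) ≤ B.card := Nat.cast_nonneg _
  have h4 : (e0 : ℝ) ≤ (1 / Real.log (Real.log H)) ^ k * A.card := by
    have h5 : (e0 : ℝ) * Real.log (Real.log H) ^ k ≤ A.card := by
      refine le_trans ?_ hcA
      have h6 : Real.log (Real.log H) ≤ Real.log H := (Real.log_le_self (by linarith))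
      have h7 : (e0 : ℝ) ≤ Real.log H ^ (7 * k) := by
        have h8 : Real.log H ≤ Real.log H ^ (7 * k) := le_self_pow₀ hl1.le (by omega)
        linarith
      calc (e0 : ℝ) * Real.log (Real.log H) ^ k ≤ Real.log H ^ (7 * k) * Real.log H ^ k :=
            mul_le_mul h7 (pow_le_pow_left₀ hll.le h6 k) (by positivity) (by positivity)
        _ = Real.log H ^ (8 * k) := by rw [← pow_add]; congr 1; ring
    rw [one_div, inv_pow, ← div_eq_inv_mul, le_div_iff₀ (by positivity)]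
    exact h5
  have h5 : (1 / Real.log (Real.log ((H ^ E : ℕ) : ℝ))) ^ k ≤ (1 / Real.log (Real.log H)) ^ k := by
    have hle : Real.log (Real.log H) ≤ Real.log (Real.log ((H ^ E : ℕ) : ℝ)) := by
      refine Real.log_le_log (by linarith) ?_
      rw [hlogE]
      nlinarith
    exact pow_le_pow_left₀ (one_div_nonneg.2 (hll.le.trans hle)) (one_div_le_one_div_of_le hll hle) k
  have h6 : (A1.card : ℝ) ≤ A.card := by exact_mod_cast card_filter_le _ _
  rw [h3]
  calc ((G.filter (fun x => x.1 ∈ A1)).card : ℝ) + (G.filter (fun x => ¬ x.1 ∈ A1)).card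
      ≤ C * (1 / Real.log (Real.log ((H ^ E : ℕ) : ℝ))) ^ k * (A1.card * B.card) + e0 * B.card := add_le_add h1 h2
    _ ≤ C * (1 / Real.log (Real.log H)) ^ k * (A.card * B.card) + ((1 / Real.log (Real.log H)) ^ k * A.card) * B.card := by
        refine add_le_add ?_ (mul_le_mul_of_nonneg_right h4 hB0)
        refine mul_le_mul (mul_le_mul_of_nonneg_left h5 hC.le) (mul_le_mul_of_nonneg_right h6 hB0) (by positivity) (by positivity)
    _ = _ := by ring

end Pool.Agent.V8H62.PF
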